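import Mathlib
import Pool.Agent.Work.MP_787500_nt.QX.FDefs

/-!
Parity of ordinary (Greenberg) Selmer groups over an imaginary quadratic field: definitions used in the statement of
the theorem. `fixedModulo` and `selmerGreenberg` are in `QX/FDefs.lean`.
-/

set_option autoImplicit false

namespace Pool.Agent.Work.MP_787500_nt.Parity

open Matrix NumberField

section group

variable {G : Type*} [Group G] [TopologicalSpace G] {E : Type*} [NormedField E] {n : ℕ}

/-- the vectors `y` with `b (x, y) = 0` for all `x` in `W` -/
def annih (b : Matrix (Fin n) (Fin n) E) (W : Submodule E (Fin n → E)) :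
    Submodule E (Fin n → E) where
  carrier := {y | ∀ x ∈ W, x ⬝ᵥ (b *ᵥ y) = 0}
  add_mem' := fun {y z} hy hz x hx => by
    rw [mulVec_add, dotProduct_add, hy x hx, hz x hx, add_zero]
  zero_mem' := fun x _ => by rw [mulVec_zero, dotProduct_zero]
  smul_mem' := fun a y hy x hx => by
    rw [mulVec_smul, dotProduct_smul, hy x hx, smul_zero]

theorem mem_annih {b : Matrix (Fin n) (Fin n) E} {W : Submodule E (Fin n → E)} {y : Fin n → E} :
    y ∈ annih b W ↔ ∀ x ∈ W, x ⬝ᵥ (b *ᵥ y) = 0 := Iff.rfl

/-- The cocycles that are coboundaries on the subgroups in `N`, coboundaries modulo `W` on `D`, and coboundaries modulo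
`W'` on `D'`. -/
def selmerTwo (N : Set (Subgroup G)) (ρ : G →* Matrix (Fin n) (Fin n) E) (D D' : Subgroup G)
    (W W' : Submodule E (Fin n → E)) : Submodule E (G → Fin n → E) :=
  selmerGreenberg N ρ D W ⊓ selmerGreenberg N ρ D' W'

open scoped Classical in
/-- The Selmer space `selmerTwo` is finite dimensional, it contains the coboundaries, and its dimension modulo the
coboundaries plus the dimension of the space of vectors fixed by `G` is congruent modulo 2 to the dimension of `W`, plus
the dimension of the space of vectors of the quotient by `W` that are fixed by `D`, plus, if `s` holds, the dimension of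
the space of vectors of the quotient by `W'` that are fixed by `D'`, plus `a`. -/
def ParityOrdinary (N : Set (Subgroup G)) (ρ : G →* Matrix (Fin n) (Fin n) E) (D D' : Subgroup G)
    (W W' : Submodule E (Fin n → E)) (s : Prop) (a : ℕ) : Prop :=
  FiniteDimensional E (selmerTwo N ρ D D' W W') ∧
    coboundaries ρ ≤ selmerTwo N ρ D D' W W' ∧
    dimModulo (selmerTwo N ρ D D' W W') (coboundaries ρ) +
        Module.finrank E (fixedBy (fun σ : G => ρ σ)) ≡
      Module.finrank E W + dimModulo (fixedModulo (fun σ : D => ρ σ) W) W +
        (if s then dimModulo (fixedModulo (fun σ : D' => ρ σ) W') W' else 0) + a [MOD 2]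

end group

end Pool.Agent.Work.MP_787500_nt.Parity
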