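import Mathlib
import Pool.Agent.Work.MP_787500_nt.OV.Defs

/-!
# Module OV/Conj: the place 2 does not split

If `D'` is the conjugate of `D` by `g⁻¹` and `W' = ρ g⁻¹ W`, the condition at `D'` is that at `D`.
-/

set_option autoImplicit false
set_option linter.unusedSectionVars false

namespace Pool.Agent.Work.MP_787500_nt.OV

open Matrix
open Pool.Agent.Work.MP_787500_nt.Parity

variable {G : Type*} [Group G] [TopologicalSpace G] {E : Type*} [NormedField E] {n : ℕ}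
  {ρ : G →* Matrix (Fin n) (Fin n) E} {D D' : Subgroup G} {W W' : Submodule E (Fin n → E)}

theorem coc_inv {x : G → Fin n → E} (hx : IsCocycle (fun σ => ρ σ) x) (g : G) :
    x g⁻¹ = -(ρ g⁻¹ *ᵥ x g) := by
  have h0 : x 1 = 0 := by
    have h := hx.2 1 1
    simp only [mul_one, map_one, one_mulVec] at h
    exact left_eq_add.1 h
  have h := hx.2 g⁻¹ g
  rw [inv_mul_cancel, h0] at h
  exact eq_neg_of_add_eq_zero_left h.symm

/-- one half of the equivalence -/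
theorem greenberg_step {x : G → Fin n → E} (hx : IsCocycle (fun σ => ρ σ) x) {g : G}
    (hD : ∀ σ, σ ∈ D' ↔ g * σ * g⁻¹ ∈ D) (hW : ∀ y, y ∈ W' ↔ ρ g *ᵥ y ∈ W)
    (h : ∃ v, ∀ σ ∈ D, x σ - (ρ σ *ᵥ v - v) ∈ W) : ∃ v, ∀ σ ∈ D', x σ - (ρ σ *ᵥ v - v) ∈ W' := by
  obtain ⟨v, hv⟩ := h
  have hgg : ∀ y, ρ g *ᵥ (ρ g⁻¹ *ᵥ y) = y := fun y => by
    rw [mulVec_mulVec, ← map_mul, mul_inv_cancel, map_one, one_mulVec]
  refine ⟨ρ g⁻¹ *ᵥ (v + x g), fun σ hσ => ?_⟩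
  rw [hW]
  have h1 := hv _ ((hD σ).1 hσ)
  have e1 : x (g * σ * g⁻¹) = x g + ρ g *ᵥ x σ - ρ (g * σ * g⁻¹) *ᵥ x g := by
    rw [hx.2 (g * σ) g⁻¹, hx.2 g σ, coc_inv hx g, mulVec_neg]
    show _ + _ + -(ρ (g * σ) *ᵥ (ρ g⁻¹ *ᵥ x g)) = _
    rw [mulVec_mulVec, ← map_mul]
    abel
  have e2 : ρ g *ᵥ (x σ - (ρ σ *ᵥ (ρ g⁻¹ *ᵥ (v + x g)) - ρ g⁻¹ *ᵥ (v + x g))) =
      x (g * σ * g⁻¹) - (ρ (g * σ * g⁻¹) *ᵥ v - v) := by
    rw [e1, mulVec_sub, mulVec_sub, hgg, mulVec_mulVec, mulVec_mulVec, ← map_mul, ← map_mul,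
      mulVec_add]
    abel
  rw [e2]
  exact h1

/-- THE CONDITION AT THE CONJUGATE PLACE. -/
theorem greenberg_conj {N : Set (Subgroup G)} {g : G}
    (hD : ∀ σ, σ ∈ D' ↔ g * σ * g⁻¹ ∈ D) (hW : ∀ y, y ∈ W' ↔ ρ g *ᵥ y ∈ W) :
    selmerGreenberg N ρ D' W' = selmerGreenberg N ρ D W := by
  have hD' : ∀ σ, σ ∈ D ↔ g⁻¹ * σ * g⁻¹⁻¹ ∈ D' := fun σ => by
    rw [hD]
    have e : g * (g⁻¹ * σ * g⁻¹⁻¹) * g⁻¹ = σ := by group
    rw [e]
  have hW' : ∀ y, y ∈ W ↔ ρ g⁻¹ *ᵥ y ∈ W' := fun y => by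
    rw [hW, mulVec_mulVec, ← map_mul, mul_inv_cancel, map_one, one_mulVec]
  ext x
  constructor
  · rintro ⟨h1, h2, h3⟩
    exact ⟨h1, h2, greenberg_step h1 hD' hW' h3⟩
  · rintro ⟨h1, h2, h3⟩
    exact ⟨h1, h2, greenberg_step h1 hD hW h3⟩

/-- The dimension of the fixed vectors of the quotient. -/
theorem dimModulo_eq [FiniteDimensional E (Fin n → E)] {M B : Submodule E (Fin n → E)} (h : B ≤ M) :
    dimModulo M B + Module.finrank E B = Module.finrank E M := by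
  have h1 := Submodule.finrank_quotient_add_finrank (B.submoduleOf M)
  have h2 : Module.finrank E (B.submoduleOf M) = Module.finrank E B :=
    (Submodule.submoduleOfEquivOfLe h).finrank_eq
  rw [h2] at h1
  exact h1

theorem le_fixedModulo {S : Type*} {A : S → Matrix (Fin n) (Fin n) E}
    (hst : ∀ g, ∀ x ∈ W, A g *ᵥ x ∈ W) : W ≤ fixedModulo A W :=
  fun x hx g => W.sub_mem (hst g x hx) hx

/-- THE CASE IN WHICH 2 DOES NOT SPLIT. -/
theorem ordinary_nonsplit {N : Set (Subgroup G)} {g : G} {a : ℕ}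
    (hD : ∀ σ, σ ∈ D' ↔ g * σ * g⁻¹ ∈ D) (hW : ∀ y, y ∈ W' ↔ ρ g *ᵥ y ∈ W)
    (hst : ∀ σ ∈ D, ∀ x ∈ W, ρ σ *ᵥ x ∈ W) (hn : 2 * Module.finrank E W = n)
    {s : Prop} (hs : ¬ s) (h : ParityGreenberg N ρ D W a) : ParityOrdinary N ρ D D' W W' s a := by
  have e : selmerTwo N ρ D D' W W' = selmerGreenberg N ρ D W := by
    rw [selmerTwo, greenberg_conj hD hW, inf_idem]
  obtain ⟨h1, h2, h3⟩ := h
  refine ⟨by rw [e]; exact h1, by rw [e]; exact h2, ?_⟩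
  rw [e, if_neg hs, add_zero]
  have h4 := dimModulo_eq (le_fixedModulo (A := fun σ : D => ρ σ) fun g x hx => hst g g.2 x hx)
  have h5 : dimModulo (fixedModulo (fun σ : D => ρ σ) W) W =
      Module.finrank E (fixedModulo (fun σ : D => ρ σ) W) - Module.finrank E W := by omega
  have h6 : n / 2 = Module.finrank E W := by omega
  rw [h5, ← h6]
  rw [← h6] at h3
  exact h3

end Pool.Agent.Work.MP_787500_nt.OV
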