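import Mathlib
import Pool.Agent.Work.MP_787500_nt.OV.Conj
import Pool.Agent.Work.MP_787500_nt.QX.Two

/-!
# Module OV/Prm: the two primes above 2

`P' = c P`; the decomposition groups of `P` and `P'`; the elements of the decomposition group over the rational numbers
that are not in the group of `K`.
-/

set_option autoImplicit false
set_option linter.unusedSectionVars false

namespace Pool.Agent.Work.MP_787500_nt.OV

open Matrix NumberField
open Pool.Agent.Work.MP_787500_nt.GP (bil stabD)
open Pool.Agent.Work.MP_787500_nt.HP (IsQ stb emb og mem_stb)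
open Pool.Agent.Work.MP_787500_nt.KS (iK)
open Pool.Agent.Work.MP_787500_nt.QS (Two)
open Pool.Agent.Work.MP_787500_nt.GA (cj mem_cj stb_cj emb_refl_stb)
open Pool.Agent.Work.MP_787500_nt.Parity

universe u v

variable {K : Type u} [Field K] [NumberField K]
  {c : AlgebraicClosure K ≃+* AlgebraicClosure K} {κ : AbsGal K →* AbsGal K}
  {P P' : Ideal (𝓞 (AlgebraicClosure K))}

theorem eq_cj (h : ∀ x y : 𝓞 (AlgebraicClosure K), (y : AlgebraicClosure K) = c x →
    (y ∈ P' ↔ x ∈ P)) : P' = cj c P := by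
  ext y
  rw [mem_cj]
  refine h _ _ ?_
  rw [HP.og_coe]
  exact (c.apply_symm_apply _).symm

theorem mem_stabD_cj (X : Two (iK K) c κ) (σ : AbsGal K) :
    σ ∈ stabD (cj c P) ↔ κ σ ∈ stabD P := by
  have hci : c⁻¹ = c := inv_eq_of_mul_eq_one_left X.cc
  rw [← emb_refl_stb, stb_cj, hci, ← emb_refl_stb]
  have h := X.kap σ
  have h' : emb (RingEquiv.refl (AlgebraicClosure K)) (κ σ) =
    c * emb (RingEquiv.refl (AlgebraicClosure K)) σ * c := h
  rw [h']

/-- conjugation by an element of the decomposition group -/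
theorem mem_stabD_conj (X : Two (iK K) c κ) {g : AbsGal K} (h0 : iK K g * c ∈ stb P)
    (σ : AbsGal K) : σ ∈ stabD (cj c P) ↔ g * σ * g⁻¹ ∈ stabD P := by
  rw [mem_stabD_cj X, ← emb_refl_stb, ← emb_refl_stb]
  have h1 : emb (RingEquiv.refl (AlgebraicClosure K)) (κ σ) =
    c * iK K σ * c := X.kap σ
  have h2 : emb (RingEquiv.refl (AlgebraicClosure K)) (g * σ * g⁻¹) =
      (iK K g * c) * (c * iK K σ * c) * (iK K g * c)⁻¹ := by
    have h3 : emb (RingEquiv.refl (AlgebraicClosure K)) (g * σ * g⁻¹) =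
      iK K g * iK K σ * (iK K g)⁻¹ := by
      show iK K (g * σ * g⁻¹) = _
      rw [map_mul, map_mul, map_inv]
    rw [h3, _root_.mul_inv_rev]
    have hcc := X.cc
    calc iK K g * iK K σ * (iK K g)⁻¹
        = iK K g * (c * c) * iK K σ * (c * c⁻¹) * (iK K g)⁻¹ := by rw [hcc, mul_one, mul_inv_cancel, mul_one]
      _ = _ := by group
  rw [h1, h2]
  constructor
  · intro h
    exact (stb P).mul_mem ((stb P).mul_mem h0 h) ((stb P).inv_mem h0)
  · intro h
    have h4 := (stb P).mul_mem ((stb P).mul_mem ((stb P).inv_mem h0) h) h0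
    have e : (iK K g * c)⁻¹ * ((iK K g * c) * (c * iK K σ * c) * (iK K g * c)⁻¹) * (iK K g * c) =
      c * iK K σ * c := by group
    rwa [e] at h4

/-- the elements outside the group of `K` in the decomposition group -/
theorem swap_iff (X : Two (iK K) c κ) (g : AbsGal K) : iK K g * c ∈ stb P ↔
    ∀ x : 𝓞 (AlgebraicClosure K), x ∈ cj c P ↔ g • x ∈ P := by
  have hci : c⁻¹ = c := inv_eq_of_mul_eq_one_left X.cc
  rw [mem_stb]
  have hog : ∀ x : 𝓞 (AlgebraicClosure K), og (iK K g * c) x = g • og c x := by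
    intro x
    apply RingOfIntegers.ext
    rfl
  have hcc : ∀ x : 𝓞 (AlgebraicClosure K), og c (og c x) = x := by
    intro x
    rw [← HP.og_mul, X.cc, HP.og_one]
  constructor
  · intro h x
    rw [mem_cj, hci, h (og c x), hog, hcc]
  · intro h x
    rw [hog, ← h (og c x), mem_cj, hci, hcc]

end Pool.Agent.Work.MP_787500_nt.OV
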