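import Mathlib
import Pool.Agent.Work.MP_787500_nt.OU.Defs
import Pool.Agent.Work.MP_787500_nt.QW.Fam
import Pool.Agent.Work.MP_787500_nt.EF.Final
import Pool.Agent.Work.MP_787500_nt.RQ.RecQ

/-!
# Module OV/EulD (size S-M): the Euler characteristic over `K` at a split prime above 2

* `eulF_iso`: transport of cocycles along `e`: `υ' g' = υ (e.symm g')`; `Z1` and `Smooth` correspond (compare `QF/` or
  `KR.Z1` transports such as `LocIso.z1`; `Sm1`: `W ↦ W.comap e`), and `invD` as well.
* `eul_D`: `eulF_iso (QW.eSt h) (QW.eSt_sys h N₀)` (QW/Fam.lean) and `EF.euler_big` (EF/Final.lean) for `Ω = AlgebraicClosure K`,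
  `halg = HP.alg_closure K`, `α` from `GA.exists_ratEquiv (alg_closure K)`, and `iv`, `ivF` from `RQ.exists_qdatF` (RQ/RecQ.lean)
  with `T = {7}`, `P k = if k = 2 then Q else Q₇` (`Q₇` a prime over 7: `HP.prime_over_nat`), `w = none`
  (`HP.PP P none = P 2`): `hG = hQ.loc none`, `hF = hF none`.
-/

set_option autoImplicit false
set_option linter.unusedSectionVars false

namespace Pool.Agent.Work.MP_787500_nt.OV

open NumberField
open Pool.Agent.Work.MP_787500_nt.GP (A0 IsAct stabD)
open Pool.Agent.Work.MP_787500_nt.KR (FSys Smooth Z1 fullC fullD big)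
open Pool.Agent.Work.MP_787500_nt.HP (stb)
open Pool.Agent.Work.MP_787500_nt.KS (iK)
open Pool.Agent.Work.MP_787500_nt.EU (invD)
open Pool.Agent.Work.MP_787500_nt.OU (EulF)

universe u v

theorem eulF_iso {D D' : Type*} [Group D] [Group D'] {S : FSys D} {S' : FSys D'} (e : D ≃* D')
    (hS : ∀ W : Subgroup D', S.mem (W.comap e.toMonoidHom) ↔ S'.mem W) (h : EulF.{v} S') :
    EulF.{v} S := by
  intro U _ _ υ hact hs h2
  have hmem : ∀ W : Subgroup D, S.mem W → S'.mem (W.comap e.symm.toMonoidHom) := by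
    intro W hW
    rw [← hS]
    have h1 : (W.comap e.symm.toMonoidHom).comap e.toMonoidHom = W := by
      ext x
      show e.symm (e x) ∈ W ↔ x ∈ W
      rw [e.symm_apply_apply]
    rw [h1]
    exact hW
  let υ' : D' → U → U := fun g => υ (e.symm g)
  have hact' : IsAct υ' :=
    { one := fun m => by
        show υ (e.symm 1) m = m
        rw [map_one, hact.one]
      mul := fun g k m => by
        show υ (e.symm (g * k)) m = υ (e.symm g) (υ (e.symm k) m)
        rw [map_mul, hact.mul]
      add := fun g m m' => hact.add _ m m' }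
  have hs' : Smooth S' υ' := by
    obtain ⟨W, hW, h1⟩ := hs
    exact ⟨_, hmem W hW, fun w hw m => h1 (e.symm w) hw m⟩
  have hz : ∀ x : D → U, Z1 S υ x → Z1 S' υ' (fun g => x (e.symm g)) := by
    rintro x ⟨⟨W, hW, h1⟩, h2⟩
    refine ⟨⟨_, hmem W hW, fun g w hw => ?_⟩, fun a b => ?_⟩
    · show x (e.symm (g * w)) = x (e.symm g)
      rw [map_mul]
      exact h1 _ _ hw
    · show x (e.symm (a * b)) = x (e.symm a) + υ (e.symm a) (x (e.symm b))
      rw [map_mul, h2]
  have hz' : ∀ x : D' → U, Z1 S' υ' x → Z1 S υ (fun g => x (e g)) := by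
    rintro x ⟨⟨W, hW, h1⟩, h2⟩
    refine ⟨⟨_, (hS W).2 hW, fun g w hw => ?_⟩, fun a b => ?_⟩
    · show x (e (g * w)) = x (e g)
      rw [map_mul]
      exact h1 _ _ hw
    · show x (e (a * b)) = x (e a) + υ a (x (e b))
      rw [map_mul, h2]
      show x (e a) + υ (e.symm (e a)) (x (e b)) = _
      rw [e.symm_apply_apply]
  have hc : Nat.card {x : D → U // Z1 S υ x} = Nat.card {x : D' → U // Z1 S' υ' x} :=
    Nat.card_congr
      { toFun := fun x => ⟨_, hz x.1 x.2⟩
        invFun := fun x => ⟨_, hz' x.1 x.2⟩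
        left_inv := fun x => Subtype.ext (funext fun g => congrArg x.1 (e.symm_apply_apply g))
        right_inv := fun x => Subtype.ext (funext fun g => congrArg x.1 (e.apply_symm_apply g)) }
  have hi : invD υ = invD υ' := by
    ext l
    constructor
    · intro hl g u
      exact hl (e.symm g) u
    · intro hl g u
      have h3 := hl (e g) u
      have h4 : υ' (e g) u = υ g u := congrArg (fun a => υ a u) (e.symm_apply_apply g)
      rwa [h4] at h3
  rw [hc, hi]
  exact h hact' hs' h2

variable {K : Type u} [Field K] [NumberField K] {c : AlgebraicClosure K ≃+* AlgebraicClosure K}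

theorem eul_D (hc : ∀ x, c (c x) = x) (hne : ∃ x, c x ≠ x) {Q : Ideal (𝓞 (AlgebraicClosure K))}
    (hQ : Q.IsPrime) (h2 : (2 : 𝓞 (AlgebraicClosure K)) ∈ Q) (h : stb Q ≤ (iK K).range)
    (N₀ : Subgroup (AbsGal K)) :
    EulF.{v} (big (fullD (stabD (K := K) Q)) (N₀.subgroupOf (stabD Q))) := by
  refine eulF_iso (QW.eSt h) (fun W => QW.eSt_sys h N₀ W) ?_
  obtain ⟨α⟩ := GA.exists_ratEquiv (HP.alg_closure K)
  obtain ⟨Q7, hQ7, hm7⟩ := HP.prime_over_nat (Ω := AlgebraicClosure K) (by norm_num : Nat.Prime 7)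
  let P : ℕ → Ideal (𝓞 (AlgebraicClosure K)) := fun k => if k = 2 then Q else Q7
  have hP : HP.IsP ({7} : Finset ℕ) P := by
    refine ⟨fun l hl => ?_, fun l hl => ?_, fun l hl => ?_, fun l hl => ?_⟩
    · rw [Finset.mem_singleton.1 hl]
      norm_num
    · rw [Finset.mem_singleton.1 hl]
      norm_num
    · rcases hl with hl | hl
      · rw [Finset.mem_singleton.1 hl]
        exact hQ7
      · rw [hl]
        exact hQ
    · rcases hl with hl | hl
      · rw [Finset.mem_singleton.1 hl]
        exact hm7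
      · rw [hl]
        exact_mod_cast h2
  obtain ⟨inv, invF, hD, hF, -⟩ := RQ.exists_qdatF (HP.alg_closure K) hc hne
    (Finset.singleton_nonempty 7) hP
  intro U _ _ υ hact hs hU
  exact EF.euler_big (HP.alg_closure K) α hQ h2 (hD.loc none) (hF none) hact hs hU

end Pool.Agent.Work.MP_787500_nt.OV
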