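import Mathlib
import Pool.Agent.Work.MP_787500_nt.OU.Defs

/-!
The ordinary condition at a split place, without lattices (phase E5, split half): definitions (fixed, do not change).
-/

set_option autoImplicit false
set_option linter.unusedSectionVars false

namespace Pool.Agent.Work.MP_787500_nt.OV

open Matrix
open Pool.Agent.Work.MP_787500_nt.GP (bil)
open Pool.Agent.Work.MP_787500_nt.KR (FSys)
open Pool.Agent.Work.MP_787500_nt.PA (toE)

variable {E : Type*} [NormedField E] [NormedAlgebra ℚ_[2] E] {n : ℕ} {P : Type*} [Group P]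

/-- two representations on `E ^ n`, close to the identity on small members of the system, and dual to each other for
the form `b`, up to the character `χ` (`KR.LocRep` without a lattice) -/
structure DRep (TP : FSys P) (χ : P → ℤ_[2]) (b : Matrix (Fin n) (Fin n) E)
    (σ σ' : P → Matrix (Fin n) (Fin n) E) : Prop where
  one : σ 1 = 1
  mul : ∀ s t, σ (s * t) = σ s * σ t
  one' : σ' 1 = 1
  mul' : ∀ s t, σ' (s * t) = σ' s * σ' t
  sm : ∀ ε : ℝ, 0 < ε → ∃ W, TP.mem W ∧ ∀ w ∈ W, ∀ x : Fin n → E, ‖σ w *ᵥ x - x‖ ≤ ε * ‖x‖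
  sm' : ∀ ε : ℝ, 0 < ε → ∃ W, TP.mem W ∧ ∀ w ∈ W, ∀ x : Fin n → E, ‖σ' w *ᵥ x - x‖ ≤ ε * ‖x‖
  dual : ∀ d x y, bil b (σ d *ᵥ x) (σ' d *ᵥ y) = toE E (χ d) * bil b x y

end Pool.Agent.Work.MP_787500_nt.OV
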