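import Mathlib
import Pool.Agent.Work.MP_787500_nt.OV.LDefs
import Pool.Agent.Work.MP_787500_nt.OU.Crd
import Pool.Agent.Work.MP_787500_nt.GP.L04_Func
import Pool.Agent.Work.MP_787500_nt.KR.L05

/-!
# Module OV/Lat (size S-M): coordinates in which the pair preserves the standard lattice

`l`: `GP.exists_unif E` (GP/L03_Ring.lean); `t`: `GP.exists_func E` (GP/L04_Func.lean). `KR.exists_lat0` (KR/L05.lean;
`SmallRep TP σ` from `h.one`, `h.mul`, `h.sm`; `b := 0`) gives a bounded open `σ`-stable `O`-lattice `T₀` of `E ^ n`. It has a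
basis `e_1, ..., e_n` (the private lemma `crd_basis` in OP/Crd.lean, copy it; the number of elements is `n`: the basis is also
an `E`-basis of `E ^ n`, as in the private `crd_core` there: linear independence by `LinearIndependent.iff_fractionRing`,
generation because `T₀` is open). `H` is the matrix with columns `e_j`: `x ∈ T₀ ↔ H⁻¹ x ∈ stdL E n`, `H` is invertible.
* `Lat 1 l t (stdL E n)`: as `crd_lat` (private in OP/Crd; `OU.lat_std` needs a lattice to start with).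
* `LocRep`, with `σ₁ g = H⁻¹ * σ g * H`, `σ₁' g = (Hᵀ * b) * σ' g * (Hᵀ * b)⁻¹` (`det (Hᵀ * b) ≠ 0`): `one, mul, one', mul'`:
  matrix identities (`Matrix.nonsing_inv_mul`, ...); `sm, sm'`: matrices are bounded (`OP.lin_bdd` in OP/Base.lean);
  `dual`: `bil 1 (σ₁ g x) (σ₁' g y) = (H⁻¹ σ g H x) ⬝ᵥ (Hᵀ b σ' g y')`, `y' = (Hᵀ b)⁻¹ y`, `= bil b (σ g (H x)) (σ' g y')
  = χ g * bil b (H x) y' = χ g * x ⬝ᵥ y` (`h.dual`; `dotProduct_mulVec`, `vecMul_transpose`); `st`: `T₀` is `σ`-stable;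
  `st'`: `Lat.dual` for `stdL`: for `x ∈ stdL`, `‖bil 1 x (σ₁' g y)‖ = ‖bil 1 (σ₁ g (σ₁ g⁻¹ x)) (σ₁' g y)‖ = ‖χ g‖ * ..≤ 1`.
-/

set_option autoImplicit false
set_option linter.unusedSectionVars false

namespace Pool.Agent.Work.MP_787500_nt.OV

open Matrix
open Pool.Agent.Work.MP_787500_nt.GP (A0 OE bil Lat mem_OE bil_add_left bil_add_right bil_sub_left
  bil_sub_right bil_smul_left bil_smul_right)
open Pool.Agent.Work.MP_787500_nt.KR (FSys LocRep)
open Pool.Agent.Work.MP_787500_nt.PA (toE)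
open Pool.Agent.Work.MP_787500_nt.OP (stdL mem_stdL)

universe v

variable {E : Type v} [NormedField E] [NormedAlgebra ℚ_[2] E] [FiniteDimensional ℚ_[2] E] {n : ℕ}
  {P : Type*} [Group P] {TP : FSys P} {χ : P → ℤ_[2]} {b : Matrix (Fin n) (Fin n) E}
  {σ σ' : P → Matrix (Fin n) (Fin n) E}

private theorem lat_toE (a : ℤ_[2]) : ‖toE E a‖ ≤ 1 := by
  rw [toE, norm_algebraMap']
  exact a.2

section basis

variable {l : OE E} {T : Submodule (OE E) (Fin n → E)}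

private theorem crd_pow (hllt : ‖(l : E)‖ < 1) (C ε : ℝ) (hε : 0 < ε) :
    ∃ k : ℕ, ‖(l : E)‖ ^ k * C < ε := by
  have h1 : Filter.Tendsto (fun k : ℕ => ‖(l : E)‖ ^ k * C) Filter.atTop (nhds (0 * C)) :=
    (tendsto_pow_atTop_nhds_zero_of_lt_one (norm_nonneg _) hllt).mul_const C
  rw [zero_mul] at h1
  exact (h1.eventually (gt_mem_nhds hε)).exists

private theorem crd_frac (hlne : (l : E) ≠ 0) (hllt : ‖(l : E)‖ < 1) :
    IsFractionRing (OE E) E := by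
  refine IsFractionRing.of_field (R := OE E) (K := E) fun z => ?_
  obtain ⟨k, hk⟩ := crd_pow hllt ‖z‖ 1 one_pos
  refine ⟨⟨(l : E) ^ k * z, ?_⟩, l ^ k, ?_⟩
  · rw [mem_OE, norm_mul, norm_pow]
    exact hk.le
  · show z = ((l : E) ^ k * z) / (((l ^ k : OE E)) : E)
    rw [Subring.coe_pow, mul_div_cancel_left₀ _ (pow_ne_zero _ hlne)]

private theorem crd_scale (hllt : ‖(l : E)‖ < 1)
    (hopn : ∃ r : ℝ, 0 < r ∧ ∀ x : Fin n → E, ‖x‖ < r → x ∈ T) (x : Fin n → E) :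
    ∃ k : ℕ, (l : E) ^ k • x ∈ T := by
  obtain ⟨r, hr, hT⟩ := hopn
  obtain ⟨k, hk⟩ := crd_pow hllt ‖x‖ r hr
  refine ⟨k, hT _ ?_⟩
  rw [norm_smul, norm_pow]
  exact hk

private theorem crd_basis (hlne : (l : E) ≠ 0) (hllt : ‖(l : E)‖ < 1)
    (hlmax : ∀ x : E, ‖x‖ < 1 → ‖x‖ ≤ ‖(l : E)‖) (hbdd : ∃ R : ℝ, ∀ x ∈ T, ‖x‖ ≤ R) :
    ∃ k : ℕ, Nonempty (Module.Basis (Fin k) (OE E) T) := by
  have hpid : IsPrincipalIdealRing (OE E) := GP.isPID hlne hllt hlmax
  obtain ⟨R, hR⟩ := hbdd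
  obtain ⟨k, hk⟩ := crd_pow hllt R 1 one_pos
  let Φ : T →ₗ[OE E] (Fin n → OE E) :=
    { toFun := fun x i => ⟨(l : E) ^ k * x.1 i, by
        rw [mem_OE, norm_mul, norm_pow]
        exact (mul_le_mul_of_nonneg_left ((norm_le_pi_norm x.1 i).trans (hR _ x.2))
          (by positivity)).trans hk.le⟩
      map_add' := fun x y => by
        funext i
        apply Subtype.ext
        exact mul_add _ _ _
      map_smul' := fun a x => by
        funext i
        apply Subtype.ext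
        show (l : E) ^ k * ((a : E) * x.1 i) = (a : E) * ((l : E) ^ k * x.1 i)
        ring }
  have hΦ : Function.Injective Φ := by
    intro x y hxy
    apply Subtype.ext
    funext i
    have h1 : (l : E) ^ k * x.1 i = (l : E) ^ k * y.1 i := congrArg Subtype.val (congrFun hxy i)
    exact mul_left_cancel₀ (pow_ne_zero _ hlne) h1
  obtain ⟨m, ⟨β⟩⟩ := Submodule.nonempty_basis_of_pid (Pi.basisFun (OE E) (Fin n))
    (LinearMap.range Φ)
  exact ⟨m, ⟨β.map (LinearEquiv.ofInjective Φ hΦ).symm⟩⟩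


/-- a matrix whose columns are a basis of the lattice -/
private theorem crd_mat (hlne : (l : E) ≠ 0) (hllt : ‖(l : E)‖ < 1)
    (hlmax : ∀ x : E, ‖x‖ < 1 → ‖x‖ ≤ ‖(l : E)‖) (hbdd : ∃ R : ℝ, ∀ x ∈ T, ‖x‖ ≤ R)
    (hopn : ∃ r : ℝ, 0 < r ∧ ∀ x : Fin n → E, ‖x‖ < r → x ∈ T) :
    ∃ H : Matrix (Fin n) (Fin n) E, H.det ≠ 0 ∧ ∀ x, H *ᵥ x ∈ T ↔ x ∈ stdL E n := by
  have hfrac := crd_frac hlne hllt
  obtain ⟨k, ⟨bM⟩⟩ := crd_basis (T := T) hlne hllt hlmax hbdd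
  have hli : LinearIndependent E (fun i => (bM i : Fin n → E)) := by
    rw [← LinearIndependent.iff_fractionRing (R := OE E)]
    exact bM.linearIndependent.map' T.subtype (Submodule.ker_subtype _)
  have hxs : ∀ x : T, (x : Fin n → E) =
      ∑ i, ((bM.repr x i : OE E) : E) • (bM i : Fin n → E) := by
    intro x
    have h1 := congrArg Subtype.val (bM.sum_repr x)
    rw [Submodule.coe_sum] at h1
    exact h1.symm
  have hsp : ⊤ ≤ Submodule.span E (Set.range fun i => (bM i : Fin n → E)) := by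
    rintro x -
    obtain ⟨j, hj⟩ := crd_scale (T := T) hllt hopn x
    have h1 := hxs ⟨_, hj⟩
    have h2 : x = ((l : E) ^ j)⁻¹ •
        ∑ i, ((bM.repr ⟨_, hj⟩ i : OE E) : E) • (bM i : Fin n → E) := by
      rw [← h1, smul_smul, inv_mul_cancel₀ (pow_ne_zero _ hlne), one_smul]
    rw [h2]
    exact Submodule.smul_mem _ _ (Submodule.sum_mem _ fun i _ =>
      Submodule.smul_mem _ _ (Submodule.subset_span ⟨i, rfl⟩))
  have hk : k = n := by
    have h1 := Module.finrank_eq_card_basis (Module.Basis.mk hli hsp)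
    rw [Module.finrank_fin_fun, Fintype.card_fin] at h1
    exact h1.symm
  subst hk
  have hH : ∀ x : Fin k → E, (Matrix.of fun i j => (bM j : Fin k → E) i) *ᵥ x =
      ∑ j, x j • (bM j : Fin k → E) := by
    intro x
    funext i
    rw [Finset.sum_apply]
    show ∑ j : Fin k, (bM j : Fin k → E) i * x j = _
    exact Finset.sum_congr rfl fun j _ => mul_comm _ _
  refine ⟨Matrix.of fun i j => (bM j : Fin k → E) i, ?_, fun x => ?_⟩
  · have h1 : Function.Injective (Matrix.of fun i j => (bM j : Fin k → E) i).mulVec := by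
      intro x y hxy
      have h2 : ∑ j, (x j - y j) • (bM j : Fin k → E) = 0 := by
        have h3 : (Matrix.of fun i j => (bM j : Fin k → E) i) *ᵥ x =
          (Matrix.of fun i j => (bM j : Fin k → E) i) *ᵥ y := hxy
        rw [hH, hH] at h3
        simp only [sub_smul, Finset.sum_sub_distrib, h3, sub_self]
      have h4 := Fintype.linearIndependent_iff.1 hli _ h2
      funext j
      exact sub_eq_zero.1 (h4 j)
    have h2 := (Matrix.isUnit_iff_isUnit_det _).1 (Matrix.mulVec_injective_iff_isUnit.1 h1)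
    exact h2.ne_zero
  · rw [hH]
    constructor
    · intro hx j
      have h1 := hxs ⟨_, hx⟩
      have h2 : ∑ j, (x j - ((bM.repr ⟨_, hx⟩ j : OE E) : E)) • (bM j : Fin k → E) = 0 := by
        simp only [sub_smul, Finset.sum_sub_distrib]
        rw [sub_eq_zero]
        exact h1
      have h4 := Fintype.linearIndependent_iff.1 hli _ h2 j
      rw [sub_eq_zero.1 h4]
      exact (bM.repr ⟨_, hx⟩ j).2
    · intro hx
      exact T.sum_mem fun j _ => T.smul_mem ⟨x j, hx j⟩ (bM j).2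

end basis

private theorem crd_lat {l : OE E} {t : E →ₗ[ℚ_[2]] ℚ_[2]} (lne : (l : E) ≠ 0)
    (llt : ‖(l : E)‖ < 1) (lmax : ∀ x : E, ‖x‖ < 1 → ‖x‖ ≤ ‖(l : E)‖)
    (tint : ∀ x : E, ‖x‖ ≤ 1 → ‖t x‖ ≤ 1)
    (tdual : ∀ x : E, (∀ a : E, ‖a‖ ≤ 1 → ‖t (a * x)‖ ≤ 1) → ‖x‖ ≤ 1)
    (trep : ∀ f : E →ₗ[ℚ_[2]] ℚ_[2], ∃ a : E, ∀ x, f x = t (a * x)) :
    Lat (1 : Matrix (Fin n) (Fin n) E) l t (stdL E n) where
  lne := lne
  llt := llt
  lmax := lmax
  tint := tint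
  tdual := tdual
  trep := trep
  symm := Matrix.transpose_one
  dual x := by
    have hu := Gn.ultra 2 E
    constructor
    · intro hx y hy
      rw [bil, one_mulVec]
      refine IsUltrametricDist.norm_sum_le_of_forall_le_of_nonneg zero_le_one fun j _ => ?_
      rw [norm_mul]
      exact mul_le_one₀ (hx j) (norm_nonneg _) (hy j)
    · intro hx j
      have h1 := hx (Pi.single j 1) (fun k => by
        by_cases hk : k = j
        · subst hk
          rw [Pi.single_eq_same, norm_one]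
        · rw [Pi.single_eq_of_ne hk, norm_zero]
          exact zero_le_one)
      rw [bil, one_mulVec, dotProduct_single, mul_one] at h1
      exact h1
  bdd := ⟨1, fun x hx => (pi_norm_le_iff_of_nonneg zero_le_one).2 hx⟩
  opn := ⟨1, one_pos, fun x hx j => (norm_le_pi_norm x j).trans hx.le⟩

/-- conjugation keeps the representation property -/
private theorem conj_rep {A : Matrix (Fin n) (Fin n) E} (hA : A.det ≠ 0)
    {ρ : P → Matrix (Fin n) (Fin n) E} (h1 : ρ 1 = 1) (hm : ∀ s t, ρ (s * t) = ρ s * ρ t) :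
    A * ρ 1 * A⁻¹ = 1 ∧ ∀ s t, A * ρ (s * t) * A⁻¹ = (A * ρ s * A⁻¹) * (A * ρ t * A⁻¹) := by
  have hu : IsUnit A.det := isUnit_iff_ne_zero.2 hA
  refine ⟨by rw [h1, mul_one, Matrix.mul_nonsing_inv A hu], fun s t => ?_⟩
  rw [hm]
  calc A * (ρ s * ρ t) * A⁻¹ = A * ρ s * 1 * ρ t * A⁻¹ := by
        simp only [mul_assoc, mul_one]
    _ = A * ρ s * (A⁻¹ * A) * ρ t * A⁻¹ := by rw [Matrix.nonsing_inv_mul A hu]
    _ = _ := by simp only [mul_assoc]

/-- conjugation keeps the continuity property -/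
private theorem conj_sm {A A' : Matrix (Fin n) (Fin n) E} (hA : A * A' = 1)
    {ρ : P → Matrix (Fin n) (Fin n) E}
    (sm : ∀ ε : ℝ, 0 < ε → ∃ W, TP.mem W ∧ ∀ w ∈ W, ∀ x : Fin n → E, ‖ρ w *ᵥ x - x‖ ≤ ε * ‖x‖) :
    ∀ ε : ℝ, 0 < ε → ∃ W, TP.mem W ∧ ∀ w ∈ W, ∀ x : Fin n → E,
      ‖(A * ρ w * A') *ᵥ x - x‖ ≤ ε * ‖x‖ := by
  intro ε hε
  obtain ⟨C, hC, hc⟩ := OP.lin_bdd (Matrix.toLin' A)
  obtain ⟨C', hC', hc'⟩ := OP.lin_bdd (Matrix.toLin' A')
  obtain ⟨W, hW, hs⟩ := sm (ε / ((C + 1) * (C' + 1))) (by positivity)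
  refine ⟨W, hW, fun w hw x => ?_⟩
  have e1 : (A * ρ w * A') *ᵥ x - x =
      Matrix.toLin' A (ρ w *ᵥ (Matrix.toLin' A' x) - Matrix.toLin' A' x) := by
    rw [map_sub, Matrix.toLin'_apply, Matrix.toLin'_apply, Matrix.toLin'_apply, mulVec_mulVec,
      mulVec_mulVec, mulVec_mulVec, hA, one_mulVec]
  rw [e1]
  refine (hc _).trans ?_
  have h1 := hs w hw (Matrix.toLin' A' x)
  have h2 := hc' x
  have h3 := norm_nonneg x
  have hp : 0 < (C + 1) * (C' + 1) := by positivity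
  have hε' : 0 ≤ ε / ((C + 1) * (C' + 1)) := by positivity
  have h4 : ε / ((C + 1) * (C' + 1)) * ((C + 1) * (C' + 1)) = ε := div_mul_cancel₀ _ hp.ne'
  calc C * ‖ρ w *ᵥ (Matrix.toLin' A' x) - Matrix.toLin' A' x‖
      ≤ C * (ε / ((C + 1) * (C' + 1)) * ‖Matrix.toLin' A' x‖) := mul_le_mul_of_nonneg_left h1 hC
    _ ≤ C * (ε / ((C + 1) * (C' + 1)) * (C' * ‖x‖)) :=
        mul_le_mul_of_nonneg_left (mul_le_mul_of_nonneg_left h2 hε') hC
    _ = ε / ((C + 1) * (C' + 1)) * (C * C') * ‖x‖ := by ring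
    _ ≤ ε / ((C + 1) * (C' + 1)) * ((C + 1) * (C' + 1)) * ‖x‖ := by
        refine mul_le_mul_of_nonneg_right (mul_le_mul_of_nonneg_left ?_ hε') h3
        nlinarith
    _ = ε * ‖x‖ := by rw [h4]

theorem exists_crd (hb : b.det ≠ 0) (h : DRep TP χ b σ σ') :
    ∃ (l : OE E) (t : E →ₗ[ℚ_[2]] ℚ_[2]) (H : Matrix (Fin n) (Fin n) E), H.det ≠ 0 ∧
      Lat (1 : Matrix (Fin n) (Fin n) E) l t (stdL E n) ∧
      LocRep TP χ (stdL E n) (1 : Matrix (Fin n) (Fin n) E) (fun g => H⁻¹ * σ g * H)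
        (fun g => (Hᵀ * b) * σ' g * (Hᵀ * b)⁻¹) := by
  obtain ⟨T, hst, -, hbdd, hopn⟩ := KR.exists_lat0 (S := TP) (ρ := σ) ⟨h.one, h.mul, h.sm⟩ 0
  obtain ⟨l, hlne, hllt, hlmax⟩ := GP.exists_unif E
  obtain ⟨t, tint, tdual, trep⟩ := GP.exists_func E
  obtain ⟨H, hdet, hHT⟩ := crd_mat (T := T) hlne hllt hlmax hbdd hopn
  have hL : Lat (1 : Matrix (Fin n) (Fin n) E) l t (stdL E n) :=
    crd_lat hlne hllt hlmax tint tdual trep
  have hHu : IsUnit H.det := isUnit_iff_ne_zero.2 hdet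
  have hAd : (Hᵀ * b).det ≠ 0 := by
    rw [Matrix.det_mul, Matrix.det_transpose]
    exact mul_ne_zero hdet hb
  have hAu : IsUnit (Hᵀ * b).det := isUnit_iff_ne_zero.2 hAd
  have hii : (H⁻¹)⁻¹ = H := Matrix.nonsing_inv_nonsing_inv H hHu
  have hid : (H⁻¹).det ≠ 0 := by
    rw [Matrix.det_nonsing_inv, Ring.inverse_eq_inv']
    exact inv_ne_zero hdet
  have c1 := conj_rep hid h.one h.mul
  rw [hii] at c1
  have c2 := conj_rep hAd h.one' h.mul'
  have hdual : ∀ d x y, bil 1 ((H⁻¹ * σ d * H) *ᵥ x) (((Hᵀ * b) * σ' d * (Hᵀ * b)⁻¹) *ᵥ y) =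
      toE E (χ d) * bil 1 x y := by
    intro d x y
    have e1 : ∀ u v : Fin n → E, bil 1 (H⁻¹ *ᵥ u) ((Hᵀ * b) *ᵥ v) = bil b u v := by
      intro u v
      rw [bil, bil, one_mulVec, ← mulVec_mulVec, dotProduct_mulVec, vecMul_transpose, mulVec_mulVec,
        Matrix.mul_nonsing_inv H hHu, one_mulVec]
    have e2 : (H⁻¹ * σ d * H) *ᵥ x = H⁻¹ *ᵥ (σ d *ᵥ (H *ᵥ x)) := by
      rw [mulVec_mulVec, mulVec_mulVec, mul_assoc]
    have e3 : ((Hᵀ * b) * σ' d * (Hᵀ * b)⁻¹) *ᵥ y =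
        (Hᵀ * b) *ᵥ (σ' d *ᵥ ((Hᵀ * b)⁻¹ *ᵥ y)) := by
      rw [mulVec_mulVec, mulVec_mulVec, mul_assoc (Hᵀ * b)]
    rw [e2, e3, e1, h.dual, ← e1, mulVec_mulVec, mulVec_mulVec, Matrix.nonsing_inv_mul H hHu,
      Matrix.mul_nonsing_inv (Hᵀ * b) hAu, one_mulVec, one_mulVec]
  have hstd : ∀ d, ∀ x ∈ stdL E n, (H⁻¹ * σ d * H) *ᵥ x ∈ stdL E n := by
    intro d x hx
    rw [← hHT, mulVec_mulVec]
    have e1 : H * (H⁻¹ * σ d * H) = σ d * H := by
      rw [← mul_assoc, ← mul_assoc, Matrix.mul_nonsing_inv H hHu, one_mul]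
    rw [e1, ← mulVec_mulVec]
    exact hst d _ ((hHT x).2 hx)
  refine ⟨l, t, H, hdet, hL, ?_⟩
  exact
    { one := c1.1
      mul := c1.2
      one' := c2.1
      mul' := c2.2
      st := hstd
      st' := by
        intro d y hy
        rw [hL.dual]
        intro x hx
        rw [GP.bil_symm Matrix.transpose_one]
        have e1 : x = (H⁻¹ * σ d * H) *ᵥ ((H⁻¹ * σ d⁻¹ * H) *ᵥ x) := by
          rw [mulVec_mulVec, ← c1.2, mul_inv_cancel, c1.1, one_mulVec]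
        rw [e1, hdual, norm_mul]
        refine mul_le_one₀ (lat_toE _) (norm_nonneg _) ?_
        exact (hL.dual _).1 (hstd d⁻¹ x hx) y hy
      sm := conj_sm (Matrix.nonsing_inv_mul H hHu) h.sm
      sm' := conj_sm (Matrix.mul_nonsing_inv (Hᵀ * b) hAu) h.sm'
      dual := hdual }

end Pool.Agent.Work.MP_787500_nt.OV
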