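import Mathlib
import Pool.Agent.Work.MP_787500_nt.OV.Lat
import Pool.Agent.Work.MP_787500_nt.OU.GrDim
import Pool.Agent.Work.MP_787500_nt.OU.PerpO

/-!
# Module OV/LocV (size S-M): the Greenberg condition at a split place, without lattices

`exists_crd hb h` gives `H` (invertible) with `LocRep` for `σ₁ g = H⁻¹ * σ g * H`, `σ₁' g = A * σ' g * A⁻¹`, `A = Hᵀ * b`
(invertible), the form `1` and the standard lattice. `W₁ = W.map (toLin' H⁻¹)`, i.e. `x ∈ W₁ ↔ H *ᵥ x ∈ W`.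
* general lemma: for an invertible matrix `B`, `τ₁ g = B * τ g * B⁻¹`, `V₁ = {x | B⁻¹ *ᵥ x ∈ V}`: `X ∈ ordW TP τ V ↔
  (fun g => B *ᵥ X g) ∈ ordW TP τ₁ V₁` (continuity: `OP.n1_lin`), so the dimensions of `ordW`, of `fixS` and of the
  subspaces agree (`LinearEquiv.finrank_eq`, the equivalences are `X ↦ B *ᵥ X`).
* `annS 1 W₁ = {y | A⁻¹ *ᵥ y ∈ annS b W}`: `bil 1 x y = bil b (H x) (A⁻¹ y)`.
* `finrank_ordV`: `OU.finrank_ordW` (OU/GrDim.lean; `[IsLocalRing (OE E)]` is `GP.isLocal E`) for `σ₁, σ₁', W₁`.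
* `perp_ordV`: `OU.perp_ordW` (OU/PerpO.lean) for `Y₁ g = A *ᵥ Y g`: `bil 1 (H⁻¹ X g) (σ₁' g (A Y u)) = bil b (X g) (σ' g (Y u))`.
-/

set_option autoImplicit false
set_option linter.unusedSectionVars false

namespace Pool.Agent.Work.MP_787500_nt.OV

open Matrix
open Pool.Agent.Work.MP_787500_nt.GP (A0 OE bil Lat mem_OE bil_add_left bil_add_right bil_sub_left
  bil_sub_right bil_smul_left bil_smul_right)
open Pool.Agent.Work.MP_787500_nt.KR (FSys LocD LocRep ZV zV)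
open Pool.Agent.Work.MP_787500_nt.PA (toE)
open Pool.Agent.Work.MP_787500_nt.OP (stdL mem_stdL)
open Pool.Agent.Work.MP_787500_nt.OT (ordW mem_ordW)
open Pool.Agent.Work.MP_787500_nt.OU (fixS mem_fixS annS mem_annS EulF)

universe v

variable {E : Type v} [NormedField E] [NormedAlgebra ℚ_[2] E] [FiniteDimensional ℚ_[2] E] {n : ℕ}
  {P : Type*} [Group P] {TP : FSys P} {χ : P → ℤ_[2]} {iv : (P → P → A0) → A0}
  {b : Matrix (Fin n) (Fin n) E} {σ σ' : P → Matrix (Fin n) (Fin n) E}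
  {W : Submodule E (Fin n → E)}

private theorem lv_fin {M : Type*} [AddCommGroup M] [Module E M] (e : M ≃ₗ[E] M)
    (p q : Submodule E M) (h : ∀ x, x ∈ p ↔ e x ∈ q) :
    Module.finrank E p = Module.finrank E q := by
  have hq : q = p.map (e : M →ₗ[E] M) := by
    ext y
    constructor
    · intro hy
      exact ⟨e.symm y, (h _).2 (by simpa using hy), by simp⟩
    · rintro ⟨x, hx, rfl⟩
      exact (h x).1 hx
  rw [hq]
  exact (LinearEquiv.finrank_map_eq e p).symm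

/-- an invertible matrix as a linear equivalence -/
private noncomputable def lv_eq (B B' : Matrix (Fin n) (Fin n) E) (h : B * B' = 1) (h' : B' * B = 1) :
    (Fin n → E) ≃ₗ[E] (Fin n → E) :=
  LinearEquiv.ofLinearMap (Matrix.toLin' B) (Matrix.toLin' B')
    (by rw [← Matrix.toLin'_mul, h, Matrix.toLin'_one])
    (by rw [← Matrix.toLin'_mul, h', Matrix.toLin'_one])

private theorem lv_eq_apply (B B' : Matrix (Fin n) (Fin n) E) (h : B * B' = 1) (h' : B' * B = 1)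
    (x : Fin n → E) : lv_eq B B' h h' x = B *ᵥ x := by
  show Matrix.toLin' B x = _
  rw [Matrix.toLin'_apply]

private theorem lv_zv {B B' : Matrix (Fin n) (Fin n) E} (h' : B' * B = 1)
    {τ : P → Matrix (Fin n) (Fin n) E} {X : P → Fin n → E} (hX : ZV TP τ X) :
    ZV TP (fun g => B * τ g * B') (fun g => B *ᵥ X g) := by
  refine ⟨?_, fun s t => ?_⟩
  · have h1 := OP.n1_lin (Matrix.toLin' B) hX.1
    simpa only [Matrix.toLin'_apply] using h1
  · show B *ᵥ X (s * t) = B *ᵥ X s + (B * τ s * B') *ᵥ (B *ᵥ X t)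
    rw [hX.2, mulVec_add, mulVec_mulVec, mulVec_mulVec]
    congr 2
    rw [mul_assoc (B * τ s), h', mul_one]

private theorem lv_ord1 {B B' : Matrix (Fin n) (Fin n) E} (h' : B' * B = 1)
    {τ : P → Matrix (Fin n) (Fin n) E} {V : Submodule E (Fin n → E)} {X : P → Fin n → E}
    (hX : X ∈ ordW TP τ V) : (fun g => B *ᵥ X g) ∈
      ordW TP (fun g => B * τ g * B') (V.comap (Matrix.toLin' B')) := by
  obtain ⟨h1, v, h2⟩ := mem_ordW.1 hX
  refine mem_ordW.2 ⟨lv_zv h' h1, B *ᵥ v, fun g => ?_⟩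
  rw [Submodule.mem_comap, Matrix.toLin'_apply]
  have e1 : B' *ᵥ (B *ᵥ X g - ((B * τ g * B') *ᵥ (B *ᵥ v) - B *ᵥ v)) =
      X g - (τ g *ᵥ v - v) := by
    rw [mulVec_sub, mulVec_sub, mulVec_mulVec, mulVec_mulVec, mulVec_mulVec, mulVec_mulVec, h',
      one_mulVec, one_mulVec]
    congr 3
    rw [← mul_assoc, ← mul_assoc, h', one_mul, mul_assoc, h', mul_one]
  rw [e1]
  exact h2 g

private theorem lv_ord {B B' : Matrix (Fin n) (Fin n) E} (h : B * B' = 1) (h' : B' * B = 1)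
    {τ : P → Matrix (Fin n) (Fin n) E} {V : Submodule E (Fin n → E)} {X : P → Fin n → E} :
    X ∈ ordW TP τ V ↔ (fun g => B *ᵥ X g) ∈
      ordW TP (fun g => B * τ g * B') (V.comap (Matrix.toLin' B')) := by
  refine ⟨lv_ord1 h', fun hX => ?_⟩
  have h1 := lv_ord1 (B := B') (B' := B) h hX
  have e1 : (fun g => B' *ᵥ (B *ᵥ X g)) = X := by
    funext g
    rw [mulVec_mulVec, h', one_mulVec]
  have e2 : (fun g => B' * (B * τ g * B') * B) = τ := by
    funext g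
    rw [← mul_assoc, ← mul_assoc, h', one_mul, mul_assoc, h', mul_one]
  have e3 : (V.comap (Matrix.toLin' B')).comap (Matrix.toLin' B) = V := by
    ext x
    rw [Submodule.mem_comap, Submodule.mem_comap, Matrix.toLin'_apply, Matrix.toLin'_apply,
      mulVec_mulVec, h', one_mulVec]
  rw [e1, e2, e3] at h1
  exact h1

private theorem lv_frk_ord {B B' : Matrix (Fin n) (Fin n) E} (h : B * B' = 1) (h' : B' * B = 1)
    (τ : P → Matrix (Fin n) (Fin n) E) (V : Submodule E (Fin n → E)) :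
    Module.finrank E (ordW TP τ V) = Module.finrank E
      (ordW TP (fun g => B * τ g * B') (V.comap (Matrix.toLin' B'))) := by
  refine lv_fin (LinearEquiv.piCongrRight fun _ : P => lv_eq B B' h h') _ _ fun X => ?_
  have e1 : (LinearEquiv.piCongrRight fun _ : P => lv_eq B B' h h') X = fun g => B *ᵥ X g := by
    funext g
    exact lv_eq_apply B B' h h' (X g)
  rw [e1]
  exact lv_ord h h'

private theorem lv_frk_fix {B B' : Matrix (Fin n) (Fin n) E} (h : B * B' = 1) (h' : B' * B = 1)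
    (τ : P → Matrix (Fin n) (Fin n) E) (V : Submodule E (Fin n → E)) :
    Module.finrank E (fixS τ V) = Module.finrank E
      (fixS (fun g => B * τ g * B') (V.comap (Matrix.toLin' B'))) := by
  refine lv_fin (lv_eq B B' h h') _ _ fun x => ?_
  rw [lv_eq_apply, mem_fixS, mem_fixS]
  refine forall_congr' fun g => ?_
  rw [Submodule.mem_comap, Matrix.toLin'_apply]
  have e1 : B' *ᵥ ((B * τ g * B') *ᵥ (B *ᵥ x) - B *ᵥ x) = τ g *ᵥ x - x := by
    rw [mulVec_sub, mulVec_mulVec, mulVec_mulVec, mulVec_mulVec, h', one_mulVec]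
    congr 2
    rw [← mul_assoc, ← mul_assoc, h', one_mul, mul_assoc, h', mul_one]
  rw [e1]

private theorem lv_frk {B B' : Matrix (Fin n) (Fin n) E} (h : B * B' = 1) (h' : B' * B = 1)
    (V : Submodule E (Fin n → E)) :
    Module.finrank E V = Module.finrank E (V.comap (Matrix.toLin' B')) := by
  refine lv_fin (lv_eq B B' h h') _ _ fun x => ?_
  rw [lv_eq_apply, Submodule.mem_comap, Matrix.toLin'_apply, mulVec_mulVec, h', one_mulVec]

private theorem lv_bil {H b : Matrix (Fin n) (Fin n) E} (hH : H.det ≠ 0) (u v : Fin n → E) :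
    bil 1 (H⁻¹ *ᵥ u) ((Hᵀ * b) *ᵥ v) = bil b u v := by
  rw [bil, bil, one_mulVec, ← mulVec_mulVec, dotProduct_mulVec, vecMul_transpose, mulVec_mulVec,
    Matrix.mul_nonsing_inv H (isUnit_iff_ne_zero.2 hH), one_mulVec]

private theorem lv_ann {H b : Matrix (Fin n) (Fin n) E} (hH : H.det ≠ 0) (hA : (Hᵀ * b).det ≠ 0) :
    annS 1 (W.comap (Matrix.toLin' H)) = (annS b W).comap (Matrix.toLin' (Hᵀ * b)⁻¹) := by
  have hHu := isUnit_iff_ne_zero.2 hH
  have hAu := isUnit_iff_ne_zero.2 hA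
  ext y
  rw [mem_annS, Submodule.mem_comap, mem_annS, Matrix.toLin'_apply]
  have e0 : (Hᵀ * b) *ᵥ ((Hᵀ * b)⁻¹ *ᵥ y) = y := by
    rw [mulVec_mulVec, Matrix.mul_nonsing_inv _ hAu, one_mulVec]
  constructor
  · intro h x hx
    have h1 := h (H⁻¹ *ᵥ x) (by
      rw [Submodule.mem_comap, Matrix.toLin'_apply, mulVec_mulVec, Matrix.mul_nonsing_inv _ hHu,
        one_mulVec]
      exact hx)
    rw [← e0, lv_bil hH] at h1
    exact h1
  · intro h x hx
    rw [Submodule.mem_comap, Matrix.toLin'_apply] at hx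
    have h1 := h _ hx
    rw [← lv_bil hH, e0, mulVec_mulVec, Matrix.nonsing_inv_mul _ hHu, one_mulVec] at h1
    exact h1

theorem finrank_ordV (hb : b.det ≠ 0) (H : LocD.{v} TP χ iv) (hE : EulF.{v} TP)
    (h : DRep TP χ b σ σ') (hst : ∀ g, ∀ x ∈ W, σ g *ᵥ x ∈ W) :
    Module.finrank E (ordW TP σ W) + Module.finrank E (fixS σ W) =
      3 * Module.finrank E W + Module.finrank E (fixS σ' (annS b W)) := by
  obtain ⟨l, t, M, hM, hl, hr⟩ := exists_crd hb h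
  have hMu := isUnit_iff_ne_zero.2 hM
  have hAd : (Mᵀ * b).det ≠ 0 := by
    rw [Matrix.det_mul, Matrix.det_transpose]
    exact mul_ne_zero hM hb
  have hAu := isUnit_iff_ne_zero.2 hAd
  have a1 : M⁻¹ * M = 1 := Matrix.nonsing_inv_mul M hMu
  have a2 : M * M⁻¹ = 1 := Matrix.mul_nonsing_inv M hMu
  have a3 : (Mᵀ * b) * (Mᵀ * b)⁻¹ = 1 := Matrix.mul_nonsing_inv _ hAu
  have a4 : (Mᵀ * b)⁻¹ * (Mᵀ * b) = 1 := Matrix.nonsing_inv_mul _ hAu
  have hst1 : ∀ g, ∀ x ∈ W.comap (Matrix.toLin' M), (M⁻¹ * σ g * M) *ᵥ x ∈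
      W.comap (Matrix.toLin' M) := by
    intro g x hx
    rw [Submodule.mem_comap, Matrix.toLin'_apply] at hx ⊢
    have e1 : M *ᵥ ((M⁻¹ * σ g * M) *ᵥ x) = σ g *ᵥ (M *ᵥ x) := by
      rw [mulVec_mulVec, mulVec_mulVec]
      congr 1
      rw [← mul_assoc, ← mul_assoc, a2, one_mul]
    rw [e1]
    exact hst g _ hx
  have hloc : IsLocalRing (OE E) := GP.isLocal E
  have key := OU.finrank_ordW H hE hl hr hst1
  rw [lv_ann hM hAd] at key
  rw [lv_frk_ord a1 a2 σ W, lv_frk_fix a1 a2 σ W, lv_frk a1 a2 W, lv_frk_fix a3 a4 σ' (annS b W)]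
  exact key

theorem perp_ordV (hb : b.det ≠ 0) (H : LocD.{v} TP χ iv) (h : DRep TP χ b σ σ')
    (hst : ∀ g, ∀ x ∈ W, σ g *ᵥ x ∈ W) {Y : P → Fin n → E} (hY : ZV TP σ' Y) :
    (∀ X ∈ ordW TP σ W, KP.BE TP χ (fun g u => bil b (X g) (σ' g *ᵥ Y u))) ↔
      Y ∈ ordW TP σ' (annS b W) := by
  obtain ⟨l, t, M, hM, hl, hr⟩ := exists_crd hb h
  have hMu := isUnit_iff_ne_zero.2 hM
  have hAd : (Mᵀ * b).det ≠ 0 := by
    rw [Matrix.det_mul, Matrix.det_transpose]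
    exact mul_ne_zero hM hb
  have hAu := isUnit_iff_ne_zero.2 hAd
  have a1 : M⁻¹ * M = 1 := Matrix.nonsing_inv_mul M hMu
  have a2 : M * M⁻¹ = 1 := Matrix.mul_nonsing_inv M hMu
  have a3 : (Mᵀ * b) * (Mᵀ * b)⁻¹ = 1 := Matrix.mul_nonsing_inv _ hAu
  have a4 : (Mᵀ * b)⁻¹ * (Mᵀ * b) = 1 := Matrix.nonsing_inv_mul _ hAu
  have hst1 : ∀ g, ∀ x ∈ W.comap (Matrix.toLin' M), (M⁻¹ * σ g * M) *ᵥ x ∈
      W.comap (Matrix.toLin' M) := by
    intro g x hx
    rw [Submodule.mem_comap, Matrix.toLin'_apply] at hx ⊢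
    have e1 : M *ᵥ ((M⁻¹ * σ g * M) *ᵥ x) = σ g *ᵥ (M *ᵥ x) := by
      rw [mulVec_mulVec, mulVec_mulVec]
      congr 1
      rw [← mul_assoc, ← mul_assoc, a2, one_mul]
    rw [e1]
    exact hst g _ hx
  have key := OU.perp_ordW H hl hr hst1 (lv_zv a4 hY)
  rw [lv_ann hM hAd] at key
  rw [lv_ord a3 a4, ← key]
  have e2 : ∀ (X : P → Fin n → E), (fun g u => bil 1 (M⁻¹ *ᵥ X g)
      (((Mᵀ * b) * σ' g * (Mᵀ * b)⁻¹) *ᵥ ((Mᵀ * b) *ᵥ Y u))) =
      fun g u => bil b (X g) (σ' g *ᵥ Y u) := by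
    intro X
    funext g u
    have e3 : ((Mᵀ * b) * σ' g * (Mᵀ * b)⁻¹) *ᵥ ((Mᵀ * b) *ᵥ Y u) =
        (Mᵀ * b) *ᵥ (σ' g *ᵥ Y u) := by
      rw [mulVec_mulVec, mulVec_mulVec]
      congr 1
      rw [mul_assoc ((Mᵀ * b) * σ' g), a4, mul_one]
    rw [e3, lv_bil hM]
  constructor
  · intro hX X₁ hX₁
    have e4 : (fun g => M⁻¹ *ᵥ (M *ᵥ X₁ g)) = X₁ := by
      funext g
      rw [mulVec_mulVec, a1, one_mulVec]
    have h5 : (fun g => M *ᵥ X₁ g) ∈ ordW TP σ W := by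
      rw [lv_ord a1 a2, e4]
      exact hX₁
    have h6 := hX _ h5
    rw [← e2] at h6
    have e5 : (fun g u => bil 1 (M⁻¹ *ᵥ (M *ᵥ X₁ g))
      (((Mᵀ * b) * σ' g * (Mᵀ * b)⁻¹) *ᵥ ((Mᵀ * b) *ᵥ Y u))) =
      fun g u => bil 1 (X₁ g)
      (((Mᵀ * b) * σ' g * (Mᵀ * b)⁻¹) *ᵥ ((Mᵀ * b) *ᵥ Y u)) := by
      funext g u
      rw [mulVec_mulVec, a1, one_mulVec]
    rw [e5] at h6
    exact h6
  · intro hX X hX'
    rw [← e2]
    exact hX _ ((lv_ord a1 a2).1 hX')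

end Pool.Agent.Work.MP_787500_nt.OV
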