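import Mathlib
import Pool.Agent.Work.MP_787500_nt.OV.LocV
import Pool.Agent.Work.MP_787500_nt.OV.EulD
import Pool.Agent.Work.MP_787500_nt.OV.Conj
import Pool.Agent.Work.MP_787500_nt.SH.Loc2
import Pool.Agent.Work.MP_787500_nt.QF.N0
import Pool.Agent.Work.MP_787500_nt.QX.Two
import Pool.Agent.Work.MP_787500_nt.LB.BK

/-!
# Module OV/Split: the parity theorem for Greenberg Selmer groups if 2 splits

`split_ord`: from the parity theorem for Bloch-Kato Selmer groups with an arbitrary condition `L` at the prime above 2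
(`ParityBKA`), for `L = L_W` the cocycles that are coboundaries modulo `W`: the annihilator of `L_W` is the condition
modulo the annihilator of `W` (`perp_ordV`), and the dimension of `L_W` is given by `finrank_ordV`.
-/

set_option autoImplicit false
set_option linter.unusedSectionVars false

namespace Pool.Agent.Work.MP_787500_nt.OV

open Matrix NumberField
open Pool.Agent.Work.MP_787500_nt.GP (A0 OE bil Lat inT stabD)
open Pool.Agent.Work.MP_787500_nt.KR (FSys LocD LocRep ZV zV fullD fullK big Opn PerpV)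
open Pool.Agent.Work.MP_787500_nt.PA (toE cyc)
open Pool.Agent.Work.MP_787500_nt.HP (IsQ stb)
open Pool.Agent.Work.MP_787500_nt.KS (iK)
open Pool.Agent.Work.MP_787500_nt.OT (ordW mem_ordW)
open Pool.Agent.Work.MP_787500_nt.OU (fixS mem_fixS annS mem_annS EulF)
open Pool.Agent.Work.MP_787500_nt.Parity

universe u v

section alg

variable {E : Type*} [NormedField E] {n : ℕ}

theorem annih_eq (b : Matrix (Fin n) (Fin n) E) [NormedAlgebra ℚ_[2] E] (W : Submodule E (Fin n → E)) :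
    annih b W = annS b W := rfl

theorem finrank_annih {b : Matrix (Fin n) (Fin n) E} (hb : b.det ≠ 0) (W : Submodule E (Fin n → E)) :
    Module.finrank E (annih b W) + Module.finrank E W = n := by
  have h1 : (Matrix.toBilin' b).Nondegenerate := by
    rw [LinearMap.BilinForm.nondegenerate_toBilin'_iff_det_ne_zero]
    exact hb
  have h3 := LinearMap.BilinForm.finrank_orthogonal h1 W
  have h4 : (Matrix.toBilin' b).orthogonal W = annih b W := by
    ext y
    rw [LinearMap.BilinForm.mem_orthogonal_iff, mem_annih]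
    refine forall₂_congr fun x _ => ?_
    rw [← Matrix.toBilin'_apply']
  rw [h4, Module.finrank_fin_fun] at h3
  have h5 : Module.finrank E W ≤ n := by
    have := Submodule.finrank_le W
    rwa [Module.finrank_fin_fun] at this
  omega

end alg

variable {K : Type u} [Field K] [NumberField K] {D : ℕ} {s : K}
  {c : AlgebraicClosure K ≃+* AlgebraicClosure K} {κ : AbsGal K →* AbsGal K} {T : Finset ℕ}
  {P : Ideal (𝓞 (AlgebraicClosure K))}
  {E : Type v} [NormedField E] [NormedAlgebra ℚ_[2] E] [FiniteDimensional ℚ_[2] E] {n : ℕ}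
  {ρ : AbsGal K →* Matrix (Fin n) (Fin n) E} {b : Matrix (Fin n) (Fin n) E}
  {N₀ : Subgroup (AbsGal K)}

/-- the two local representations -/
theorem drep (hκc : Continuous κ) (hN : N₀.Normal) (hNo : IsOpen (N₀ : Set (AbsGal K)))
    (hκN : ∀ g ∈ N₀, κ g ∈ N₀) (hρ : Gn.ConjDual 2 N₀ (inT K T) (Parity.cyclo E) κ ρ b) :
    DRep (big (fullD (stabD P)) (N₀.subgroupOf (stabD P))) (fun d => cyc (d : AbsGal K)) b
      (fun d : stabD P => ρ d) (fun d : stabD P => ρ (κ d)) := by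
  have hcs : CompactSpace (stabD P) := isCompact_iff_compactSpace.1 (GP.stabD_closed P).isCompact
  have hA : KR.ProRep (N₀.subgroupOf (stabD P)) (fun d : stabD P => ρ d) := LB.proRep_rho hρ _
  have hB : KR.ProRep (N₀.subgroupOf (stabD P)) (fun d : stabD P => ρ (κ d)) :=
    LB.proRep_kap hκc hκN hρ _
  have hbase : Gn.Base (N₀.subgroupOf (stabD P)) (∅ : Set (stabD P)) :=
    KR.base_of inferInstance (hNo.preimage continuous_subtype_val)
  have h1 := KR.big_small hbase (KR.isBig_D N₀ (GP.stabD_closed P)) hA (fun _ h => h.elim)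
  have h2 := KR.big_small hbase (KR.isBig_D N₀ (GP.stabD_closed P)) hB (fun _ h => h.elim)
  refine ⟨hA.one, hA.mul, hB.one, hB.mul, h1.sm, h2.sm, fun d x y => ?_⟩
  have h3 := hρ.dual (d : AbsGal K)
  unfold bil
  rw [← vecMul_transpose, ← dotProduct_mulVec, mulVec_mulVec, mulVec_mulVec, h3, smul_mulVec,
    dotProduct_smul, smul_eq_mul]
  rfl

/-- THE SPLIT CASE. -/
theorem split_ord (hK : IsQ K D s) (hc : PA.IsConj s c)
    (hκ : ∀ (σ : AbsGal K) (x : AlgebraicClosure K), κ σ x = c (σ (c x))) (hP : P.IsPrime)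
    (hP2 : (2 : 𝓞 (AlgebraicClosure K)) ∈ P) (hb : b.det ≠ 0)
    (hρ : IsDualRep (inT K T) (cyclo E) κ ρ b) {N : Set (Subgroup (AbsGal K))} {a : ℕ}
    (h : ParityBKA N (cyclo E) κ ρ b (stabD P) a) {W : Submodule E (Fin n → E)}
    (hW : ∀ σ ∈ stabD P, ∀ x ∈ W, ρ σ *ᵥ x ∈ W) {D' : Subgroup (AbsGal K)}
    (hD' : ∀ σ, σ ∈ D' ↔ κ σ ∈ stabD P) {s' : Prop} (hs : s') :
    ParityOrdinary N ρ (stabD P) D' W (annih b W) s' a := by
  have hκκ : ∀ g, κ (κ g) = g := GA.kap_kap hc hκ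
  have hodd : ∀ g : AbsGal K, (2 : ℤ_[2]) ∣ cyc g - 1 := PA.isChar_cyc.odd
  have hκc : Continuous κ := PA.kappa_continuous hc.sq hκ
  obtain ⟨N₀, hNn, hNF, hNo, hκN, hNI, hpro⟩ := QF.exists_n0 (KR.isFull_K T) (χ := cyc)
    PA.isChar_cyc.mul PA.isChar_cyc.one hodd hκκ hb hρ
  have hρ₀ : Gn.ConjDual 2 N₀ (inT K T) (cyclo E) κ ρ b :=
    ⟨hρ.cont, hpro, hρ.unram, hρ.symm, hρ.dual⟩
  have hcs : CompactSpace (stabD P) := isCompact_iff_compactSpace.1 (GP.stabD_closed P).isCompact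
  have hA : KR.ProRep (N₀.subgroupOf (stabD P)) (fun d : stabD P => ρ d) := LB.proRep_rho hρ₀ _
  have hB : KR.ProRep (N₀.subgroupOf (stabD P)) (fun d : stabD P => ρ (κ d)) :=
    LB.proRep_kap hκc hκN hρ₀ _
  have hNn' : (N₀.subgroupOf (stabD P)).Normal := inferInstance
  have hNo' : IsOpen ((N₀.subgroupOf (stabD P) : Subgroup (stabD P)) : Set (stabD P)) :=
    hNo.preimage continuous_subtype_val
  have hbase : Gn.Base (N₀.subgroupOf (stabD P)) (∅ : Set (stabD P)) := KR.base_of hNn' hNo'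
  have hS := KR.isBig_D N₀ (GP.stabD_closed P)
  have hd := drep (P := P) hκc hNn hNo hκN hρ₀
  -- the local data
  obtain ⟨inv, -, hL⟩ := SH.exists_inv.{u, v} hK hc hκ hP hP2
  have hOpn : Opn (fullD (stabD P)) (N₀.subgroupOf (stabD P)) := by
    have hf : Finite (stabD P ⧸ N₀.subgroupOf (stabD P)) :=
      Subgroup.quotient_finite_of_isOpen _ hNo'
    exact ⟨_, ⟨hNn', Subgroup.index_ne_zero_of_finite, N₀, hNo, le_rfl⟩, le_rfl⟩
  have hLD := hL _ hNn' hOpn
  have hne : ∃ x, c x ≠ x := QX.ne_c (QX.two_I (QX.isI_of hK) hc hκ)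
  have hE : EulF.{v} (big (fullD (stabD P)) (N₀.subgroupOf (stabD P))) :=
    eul_D hc.sq hne hP hP2 (QX.stb_le2 (QX.isI_of hK) hK.mod hP hP2) N₀
  have hcoc : ∀ X : stabD P → Fin n → E, Parity.IsCocycle (fun d : stabD P => ρ d) X ↔
      ZV (big (fullD (stabD P)) (N₀.subgroupOf (stabD P))) (fun d : stabD P => ρ d) X := fun X =>
    ⟨fun h => (KR.big_coc hbase hS hA (fun _ h => h.elim)).1 ⟨h, fun _ h => h.elim⟩,
      fun h => ((KR.big_coc hbase hS hA (fun _ h => h.elim)).2 h).1⟩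
  have hcoc' : ∀ X : stabD P → Fin n → E, Parity.IsCocycle (fun d : stabD P => ρ (κ d)) X ↔
      ZV (big (fullD (stabD P)) (N₀.subgroupOf (stabD P))) (fun d : stabD P => ρ (κ d)) X :=
    fun X => ⟨fun h => (KR.big_coc hbase hS hB (fun _ h => h.elim)).1 ⟨h, fun _ h => h.elim⟩,
      fun h => ((KR.big_coc hbase hS hB (fun _ h => h.elim)).2 h).1⟩
  have hst : ∀ g : stabD P, ∀ x ∈ W, ρ g *ᵥ x ∈ W := fun g x hx => hW g g.2 x hx
  obtain ⟨L, hLe⟩ : ∃ L, L = ordW (big (fullD (stabD P)) (N₀.subgroupOf (stabD P)))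
    (fun d : stabD P => ρ d) W := ⟨_, rfl⟩
  have hLz : ∀ X ∈ L, Parity.IsCocycle (fun d : stabD P => ρ d) X := fun X hX => by
    rw [hLe] at hX
    exact (hcoc X).2 hX.1
  have hbt : Between (coboundaries (fun σ : stabD P => ρ σ)) L
      (Parity.cocycles (fun σ : stabD P => ρ σ)) := by
    refine ⟨fun X hX => ?_, fun X hX => hLz X hX⟩
    obtain ⟨v, hv⟩ := hX
    rw [hLe]
    refine ⟨(hcoc X).1 ⟨?_, fun σ τ => ?_⟩, v, fun g => ?_⟩
    · have e : X = fun σ : stabD P => ρ σ *ᵥ v - v := funext hv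
      rw [e]
      exact (hA.cont.matrix_mulVec continuous_const).sub continuous_const
    · rw [hv, hv, hv]
      have e1 : ρ ((σ * τ : stabD P) : AbsGal K) = ρ σ * ρ τ := hA.mul σ τ
      show ρ ((σ * τ : stabD P) : AbsGal K) *ᵥ v - v =
        ρ σ *ᵥ v - v + ρ σ *ᵥ (ρ τ *ᵥ v - v)
      rw [e1, mulVec_sub, mulVec_mulVec]
      abel
    · rw [hv, sub_self]
      exact W.zero_mem
  obtain ⟨h1, h2, h3, h4⟩ := h L hbt
  -- the Selmer spaces
  have hperp : ∀ y : stabD P → Fin n → E,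
      IsPerp (fun d : stabD P => cyclo E (d : AbsGal K)) (fun d => ρ (κ d)) b
        (L : Set (stabD P → Fin n → E)) y ↔
      y ∈ ordW (big (fullD (stabD P)) (N₀.subgroupOf (stabD P))) (fun d : stabD P => ρ (κ d))
        (annS b W) := by
    intro y
    have h5 : IsPerp (fun d : stabD P => cyclo E (d : AbsGal K)) (fun d => ρ (κ d)) b
        (L : Set (stabD P → Fin n → E)) y ↔
      PerpV (big (fullD (stabD P)) (N₀.subgroupOf (stabD P)))
        (fun d : stabD P => cyc (d : AbsGal K)) b (fun d => ρ (κ d)) L y :=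
      KR.big_perp (HP.basis_sub (HP.basis_K K)) hNn' hNo' hS hLD.char hA hB hLz
    rw [h5]
    constructor
    · rintro ⟨h6, h7⟩
      refine (perp_ordV hb hLD hd hst h6).1 fun X hX => ?_
      rw [← hLe] at hX
      exact h7 X hX
    · intro h6
      refine ⟨h6.1, fun X hX => ?_⟩
      rw [hLe] at hX
      exact (perp_ordV hb hLD hd hst h6.1).2 h6 X hX
  have hsel : selmerBK N (cyclo E) κ ρ b (stabD P) L =
      selmerTwo N ρ (stabD P) D' W (annih b W) := by
    ext x
    constructor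
    · rintro ⟨k1, k2, k3, k4⟩
      rw [hLe] at k3
      obtain ⟨v, hv⟩ := k3.2
      obtain ⟨-, v', hv'⟩ := (hperp _).1 k4
      refine ⟨⟨k1, k2, v, fun σ hσ => hv ⟨σ, hσ⟩⟩, k1, k2, v', fun σ hσ => ?_⟩
      have h5 := hv' ⟨κ σ, (hD' σ).1 hσ⟩
      simp only [hκκ] at h5
      exact h5
    · rintro ⟨⟨k1, k2, v, hv⟩, -, -, v', hv'⟩
      refine ⟨k1, k2, ?_, (hperp _).2 ⟨?_, v', fun g => ?_⟩⟩
      · rw [hLe]
        exact ⟨(hcoc _).1 ⟨k1.1.comp continuous_subtype_val, fun σ τ => k1.2 _ _⟩, v,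
          fun g => hv g g.2⟩
      · refine (hcoc' _).1 ⟨k1.1.comp (hκc.comp continuous_subtype_val), fun σ τ => ?_⟩
        show x (κ (σ * τ)) = _
        rw [map_mul]
        exact k1.2 _ _
      · exact hv' (κ g) ((hD' _).2 (by
          rw [hκκ]
          exact g.2))
  rw [hsel] at h2 h3 h4
  refine ⟨h2, h3, h4.trans ?_⟩
  rw [if_pos hs]
  -- the numbers
  have g1 : Module.finrank E L + Module.finrank E (fixS (fun d : stabD P => ρ d) W) =
      3 * Module.finrank E W +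
        Module.finrank E (fixS (fun d : stabD P => ρ (κ d)) (annS b W)) := by
    rw [hLe]
    exact finrank_ordV hb hLD hE hd hst
  have g2 := GP.dimModulo_add hbt.1 h1
  have g3 := GP.finrank_cob (fun σ : stabD P => ρ σ)
  have g4 := finrank_annih hb W
  have g5 := dimModulo_eq (le_fixedModulo hst)
  have e5 : fixedModulo (fun d : stabD P => ρ d) W = fixS (fun d : stabD P => ρ d) W := rfl
  have e6 : fixedModulo (fun σ : D' => ρ σ) (annih b W) =
      fixS (fun d : stabD P => ρ (κ d)) (annS b W) := by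
    ext v
    constructor
    · intro hv g
      exact hv ⟨κ g, (hD' _).2 (by
        rw [hκκ]
        exact g.2)⟩
    · intro hv g
      have := hv ⟨κ g, (hD' _).1 g.2⟩
      simp only [hκκ] at this
      exact this
  have hst' : ∀ g : D', ∀ x ∈ annih b W, ρ g *ᵥ x ∈ annih b W := by
    intro g x hx y hy
    have hk : κ g ∈ stabD P := (hD' _).1 g.2
    have k1 : bil b (ρ (κ g) *ᵥ (ρ (κ g)⁻¹ *ᵥ y)) (ρ (κ (κ g)) *ᵥ x) =
        toE E (cyc (κ g)) * bil b (ρ (κ g)⁻¹ *ᵥ y) x :=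
      hd.dual ⟨κ g, hk⟩ (ρ (κ g)⁻¹ *ᵥ y) x
    have k2 : bil b (ρ (κ g)⁻¹ *ᵥ y) x = 0 := hx _ (hW _ (inv_mem hk) y hy)
    rw [hκκ, k2, mul_zero, mulVec_mulVec, ← map_mul, mul_inv_cancel, map_one, one_mulVec] at k1
    exact k1
  have g6 := dimModulo_eq (le_fixedModulo hst')
  rw [e6] at g6
  rw [e5] at g5
  rw [e5, e6]
  generalize Module.finrank E (fixS (fun d : stabD P => ρ (κ d)) (annS b W)) = f' at *
  generalize Module.finrank E (fixS (fun d : stabD P => ρ d) W) = f at *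
  unfold Nat.ModEq
  omega

end Pool.Agent.Work.MP_787500_nt.OV
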