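import Mathlib
import Pool.Agent.Work.MP_787500_nt.OV.Split
import Pool.Agent.Work.MP_787500_nt.OV.Prm

/-!
# Module OV/All: all imaginary quadratic fields

`ord_all`: the uniform statement from the parity theorem with an arbitrary condition at the prime above 2 (`ParityBKA`)
if 2 splits, and from the parity theorem for Greenberg Selmer groups (`ParityGreenberg`) if 2 does not split.
-/

set_option autoImplicit false
set_option linter.unusedSectionVars false

namespace Pool.Agent.Work.MP_787500_nt.OV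

open Matrix NumberField
open Pool.Agent.Work.MP_787500_nt.GP (bil inT stabD)
open Pool.Agent.Work.MP_787500_nt.HP (IsQ stb)
open Pool.Agent.Work.MP_787500_nt.KS (iK)
open Pool.Agent.Work.MP_787500_nt.GA (cj)
open Pool.Agent.Work.MP_787500_nt.Parity

universe u v

variable {K : Type u} [Field K] [NumberField K] {D : ℕ} {s : K}
  {c : AlgebraicClosure K ≃+* AlgebraicClosure K} {κ : AbsGal K →* AbsGal K} {T : Finset ℕ}
  {P P' : Ideal (𝓞 (AlgebraicClosure K))}
  {E : Type v} [NormedField E] [NormedAlgebra ℚ_[2] E] [FiniteDimensional ℚ_[2] E] {n : ℕ}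
  {ρ : AbsGal K →* Matrix (Fin n) (Fin n) E} {b : Matrix (Fin n) (Fin n) E}

/-- `W` has dimension `n / 2` if it is its own annihilator up to an invertible matrix -/
theorem two_finrank (hb : b.det ≠ 0) {W : Submodule E (Fin n → E)} {g : AbsGal K}
    (h : ∀ y, y ∈ annih b W ↔ ρ g *ᵥ y ∈ W) : 2 * Module.finrank E W = n := by
  have h1 := finrank_annih hb W
  have hgg : ∀ y, ρ g⁻¹ *ᵥ (ρ g *ᵥ y) = y := fun y => by
    rw [mulVec_mulVec, ← map_mul, inv_mul_cancel, map_one, one_mulVec]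
  have hgg' : ∀ y, ρ g *ᵥ (ρ g⁻¹ *ᵥ y) = y := fun y => by
    rw [mulVec_mulVec, ← map_mul, mul_inv_cancel, map_one, one_mulVec]
  let e : (annih b W) ≃ₗ[E] W :=
    { toFun := fun y => ⟨ρ g *ᵥ (y : Fin n → E), (h _).1 y.2⟩
      map_add' := fun x y => Subtype.ext (mulVec_add (ρ g) (x : Fin n → E) y)
      map_smul' := fun a x => Subtype.ext (mulVec_smul (ρ g) a (x : Fin n → E))
      invFun := fun y => ⟨ρ g⁻¹ *ᵥ (y : Fin n → E), (h _).2 (by
        rw [hgg']
        exact y.2)⟩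
      left_inv := fun y => Subtype.ext (hgg _)
      right_inv := fun y => Subtype.ext (hgg' _) }
  rw [e.finrank_eq] at h1
  omega

/-- THE UNIFORM STATEMENT. -/
theorem ord_all (hK : QX.IsI K D s) (hc : PA.IsConj s c)
    (hκ : ∀ (σ : AbsGal K) (x : AlgebraicClosure K), κ σ x = c (σ (c x))) (hP : P.IsPrime)
    (hP2 : (2 : 𝓞 (AlgebraicClosure K)) ∈ P)
    (hPP : ∀ x y : 𝓞 (AlgebraicClosure K), (y : AlgebraicClosure K) = c x → (y ∈ P' ↔ x ∈ P))
    (hb : b.det ≠ 0) (hρ : IsDualRep (inT K T) (cyclo E) κ ρ b)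
    {N : Set (Subgroup (AbsGal K))} {a : ℕ} {W : Submodule E (Fin n → E)}
    (hW : ∀ σ ∈ stabD P, ∀ x ∈ W, ρ σ *ᵥ x ∈ W)
    (hW' : ∀ g : AbsGal K, (∀ x : 𝓞 (AlgebraicClosure K), x ∈ P' ↔ g • x ∈ P) →
      ∀ y, y ∈ annih b W ↔ ρ g *ᵥ y ∈ W)
    (hS : D % 8 = 7 → ParityBKA N (cyclo E) κ ρ b (stabD P) a)
    (hN : ∀ g₀ : AbsGal K, iK K g₀ * c ∈ stb P → 2 * Module.finrank E W = n →
      (∀ x ∈ W, ∀ y ∈ W, bil b x (ρ g₀⁻¹ *ᵥ y) = 0) → ParityGreenberg N ρ (stabD P) W a) :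
    ParityOrdinary N ρ (stabD P) (stabD P') W (annih b W) (D % 8 = 7) a := by
  have X := QX.two_I hK hc hκ
  obtain rfl := eq_cj hPP
  by_cases hD : D % 8 = 7
  · exact split_ord ⟨hK.deg, hK.sq, hK.sqf, hD⟩ hc hκ hP hP2 hb hρ (hS hD) hW
      (mem_stabD_cj X) hD
  · obtain ⟨g₀, h0⟩ := QX.exists_swap2 hK hc hD hP hP2
    have h1 := hW' g₀ ((swap_iff X g₀).1 h0)
    have h2 := two_finrank hb h1
    refine ordinary_nonsplit (mem_stabD_conj X h0) h1 hW h2 hD (hN g₀ h0 h2 fun x hx y hy => ?_)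
    refine (h1 _).2 ?_ x hx
    rw [mulVec_mulVec, ← map_mul, mul_inv_cancel, map_one, one_mulVec]
    exact hy

end Pool.Agent.Work.MP_787500_nt.OV
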