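import Mathlib
import Pool.Agent.Work.MP_787500_nt.OV.All
import Pool.Agent.Work.MP_787500_nt.QG.Gen4
import Pool.Agent.Work.MP_787500_nt.QX.Gen6
import Pool.Agent.Work.MP_787500_nt.QX.GenL4

/-!
# Module OV/Main: the parity theorem for ordinary Selmer groups over every imaginary quadratic field

`ord_main`: the uniform statement, for representations that have a matrix `C` as in `SH.HasL`.
`self_main`: arbitrary self-annihilating conditions at the prime above 2 if it does not split.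
-/

set_option autoImplicit false
set_option linter.unusedSectionVars false

namespace Pool.Agent.Work.MP_787500_nt.OV

open Matrix NumberField
open Pool.Agent.Work.MP_787500_nt.GP (bil inT stabD)
open Pool.Agent.Work.MP_787500_nt.HP (IsQ stb)
open Pool.Agent.Work.MP_787500_nt.KS (iK)
open Pool.Agent.Work.MP_787500_nt.Parity

universe u v

variable {K : Type u} [Field K] [NumberField K] {D : ℕ} {s : K}
  {c : AlgebraicClosure K ≃+* AlgebraicClosure K} {κ : AbsGal K →* AbsGal K}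
  {P P' : Ideal (𝓞 (AlgebraicClosure K))}

open scoped Classical in
theorem ord_main (hK : QX.IsI K D s) (hc : PA.IsConj s c)
    (hκ : ∀ (σ : AbsGal K) (x : AlgebraicClosure K), κ σ x = c (σ (c x))) (hP : P.IsPrime)
    (hP2 : (2 : 𝓞 (AlgebraicClosure K)) ∈ P)
    (hPP : ∀ x y : 𝓞 (AlgebraicClosure K), (y : AlgebraicClosure K) = c x → (y ∈ P' ↔ x ∈ P))
    {T : Finset ℕ} (hT : ∀ l ∈ T, l.Prime ∧ l ≠ 2)
    {Q : ℕ → Ideal (𝓞 (AlgebraicClosure K))}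
    (hQ : ∀ l ∈ T, (Q l).IsPrime ∧ (l : 𝓞 (AlgebraicClosure K)) ∈ Q l)
    {E : Type v} [NormedField E] [NormedAlgebra ℚ_[2] E] [FiniteDimensional ℚ_[2] E] {n : ℕ}
    {ρ : AbsGal K →* Matrix (Fin n) (Fin n) E} {b : Matrix (Fin n) (Fin n) E} (hb : b.det ≠ 0)
    (hρ : IsDualRep (inT K T) (cyclo E) κ ρ b) (hC : SH.HasL (fun _ => False) κ ρ b)
    (hI : ∀ l ∈ T, GA.Inr D l → CommOn ((Q l).inertia (AbsGal K)) ρ ∨ n = 2)
    (hR : ∀ l ∈ T, l ∣ D → SemistableOn ((Q l).inertia (AbsGal K)) ρ)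
    {W : Submodule E (Fin n → E)} (hW : ∀ σ ∈ stabD P, ∀ x ∈ W, ρ σ *ᵥ x ∈ W)
    (hW' : ∀ g : AbsGal K, (∀ x : 𝓞 (AlgebraicClosure K), x ∈ P' ↔ g • x ∈ P) →
      ∀ y, y ∈ annih b W ↔ ρ g *ᵥ y ∈ W) :
    ParityOrdinary (inertiaOffTwo K) ρ (stabD P) (stabD P') W (annih b W) (D % 8 = 7)
      (∑ l ∈ T.filter (GA.Inr D), Parity.condExp ((Q l).inertia (AbsGal K)) ρ +
        ∑ l ∈ T.filter (fun l => l ∣ D),
          quotDim (stabD (Q l)) ((Q l).inertia (AbsGal K)) ρ) :=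
  ord_all hK hc hκ hP hP2 hPP hb hρ hW hW'
    (fun hD => QG.main_gen4 ⟨hK.deg, hK.sq, hK.sqf, hD⟩ hc hκ hP hP2 hT hQ hb hρ hC hI hR)
    fun g₀ h0 h2 hiso =>
      QX.main_gen6 hK hc hκ hP hP2 hT hQ hb hρ hC hI hR h0 hW h2 hiso

open scoped Classical in
theorem self_main (hK : QX.IsI K D s) (hc : PA.IsConj s c)
    (hκ : ∀ (σ : AbsGal K) (x : AlgebraicClosure K), κ σ x = c (σ (c x))) (hP : P.IsPrime)
    (hP2 : (2 : 𝓞 (AlgebraicClosure K)) ∈ P)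
    (hPP : ∀ x y : 𝓞 (AlgebraicClosure K), (y : AlgebraicClosure K) = c x → (y ∈ P' ↔ x ∈ P))
    {T : Finset ℕ} (hT : ∀ l ∈ T, l.Prime ∧ l ≠ 2)
    {Q : ℕ → Ideal (𝓞 (AlgebraicClosure K))}
    (hQ : ∀ l ∈ T, (Q l).IsPrime ∧ (l : 𝓞 (AlgebraicClosure K)) ∈ Q l)
    {E : Type v} [NormedField E] [NormedAlgebra ℚ_[2] E] [FiniteDimensional ℚ_[2] E] {n : ℕ}
    {ρ : AbsGal K →* Matrix (Fin n) (Fin n) E} {b : Matrix (Fin n) (Fin n) E} (hb : b.det ≠ 0)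
    (hρ : IsDualRep (inT K T) (cyclo E) κ ρ b) (hC : SH.HasL (fun _ => False) κ ρ b)
    (hI : ∀ l ∈ T, GA.Inr D l → CommOn ((Q l).inertia (AbsGal K)) ρ ∨ n = 2)
    (hR : ∀ l ∈ T, l ∣ D → SemistableOn ((Q l).inertia (AbsGal K)) ρ)
    {W : Submodule E (Fin n → E)} (hW : ∀ σ ∈ stabD P, ∀ x ∈ W, ρ σ *ᵥ x ∈ W)
    {g : AbsGal K} (hg : ∀ x : 𝓞 (AlgebraicClosure K), x ∈ P' ↔ g • x ∈ P)
    (hW' : ∀ y, y ∈ annih b W ↔ ρ g *ᵥ y ∈ W)
    {k : stabD P → stabD P} (hk : ∀ a, (k a : AbsGal K) = g * κ a * g⁻¹) :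
    IsSelfPerp (cyclo E) κ ρ b (stabD P) (ρ g⁻¹) k (greenbergAt ρ (stabD P) W) ∧
      ParitySelf (inertiaOffTwo K) (cyclo E) κ ρ b (stabD P) (ρ g⁻¹) k W
        (∑ l ∈ T.filter (GA.Inr D), Parity.condExp ((Q l).inertia (AbsGal K)) ρ +
          ∑ l ∈ T.filter (fun l => l ∣ D),
            quotDim (stabD (Q l)) ((Q l).inertia (AbsGal K)) ρ) := by
  have X := QX.two_I hK hc hκ
  obtain rfl := eq_cj hPP
  refine QX.main_genL4 hK hc hκ hP hP2 hT hQ hb hρ hC hI hR ((swap_iff X g).2 hg) hk hW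
    (two_finrank hb hW') fun x hx y hy => ?_
  refine (hW' _).2 ?_ x hx
  rw [mulVec_mulVec, ← map_mul, mul_inv_cancel, map_one, one_mulVec]
  exact hy

end Pool.Agent.Work.MP_787500_nt.OV
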