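import Mathlib
import Pool.Agent.Work.MP_787500_nt.OV.Main
import Pool.Agent.Work.MP_787500_nt.RB.FinalK
import Pool.Agent.Work.MP_787500_nt.RB.ExtSelf

/-!
# Module OV/MainR: residually self-dual representations

`greenR`, `selfR`: the theorems for the Greenberg Selmer group and for arbitrary self-annihilating conditions if 2 does
not split; `ord_mainR`: the uniform statement.
-/

set_option autoImplicit false
set_option linter.unusedSectionVars false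

namespace Pool.Agent.Work.MP_787500_nt.OV

open Matrix NumberField
open Pool.Agent.Work.MP_787500_nt.PA (cyc)
open Pool.Agent.Work.MP_787500_nt.LX (mapRep mapRep_apply)
open Pool.Agent.Work.MP_787500_nt.GP (bil inT stabD)
open Pool.Agent.Work.MP_787500_nt.HP (IsQ stb)
open Pool.Agent.Work.MP_787500_nt.KS (iK)
open Pool.Agent.Work.MP_787500_nt.Parity
open Pool.Agent.Work.MP_787500_nt.RB (exists_finExt parityG_fin paritySelf_fin isDualRep_fin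
  det_fin condExp_fin quotDim_fin exists_hasL)

universe u v

variable {K : Type u} [Field K] [NumberField K] {D : ℕ} {s : K}
  {c : AlgebraicClosure K ≃+* AlgebraicClosure K} {κ : AbsGal K →* AbsGal K}
  {P P' : Ideal (𝓞 (AlgebraicClosure K))}

open scoped Classical in
theorem greenR (hK : QX.IsI K D s) (hc : PA.IsConj s c)
    (hκ : ∀ (σ : AbsGal K) (x : AlgebraicClosure K), κ σ x = c (σ (c x))) (hP : P.IsPrime)
    (hP2 : (2 : 𝓞 (AlgebraicClosure K)) ∈ P)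
    {T : Finset ℕ} (hT : ∀ l ∈ T, l.Prime ∧ l ≠ 2)
    {Q : ℕ → Ideal (𝓞 (AlgebraicClosure K))}
    (hQ : ∀ l ∈ T, (Q l).IsPrime ∧ (l : 𝓞 (AlgebraicClosure K)) ∈ Q l)
    {E : Type v} [NormedField E] [NormedAlgebra ℚ_[2] E] [FiniteDimensional ℚ_[2] E] {n : ℕ}
    {ρ : AbsGal K →* Matrix (Fin n) (Fin n) E} {b : Matrix (Fin n) (Fin n) E} (hb : b.det ≠ 0)
    (hρ : IsDualRep (inT K T) (cyclo E) κ ρ b) (hres : ResSelfDual ρ)
    (hI : ∀ l ∈ T, GA.Inr D l → CommOn ((Q l).inertia (AbsGal K)) ρ ∨ n = 2)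
    (hR : ∀ l ∈ T, l ∣ D → SemistableOn ((Q l).inertia (AbsGal K)) ρ)
    {g₀ : AbsGal K} (h0 : iK K g₀ * c ∈ stb P) {W : Submodule E (Fin n → E)}
    (hW : ∀ σ ∈ stabD P, ∀ x ∈ W, ρ σ *ᵥ x ∈ W) (hW2 : 2 * Module.finrank E W = n)
    (hW0 : ∀ x ∈ W, ∀ y ∈ W, bil b x (ρ g₀⁻¹ *ᵥ y) = 0) :
    ParityGreenberg (inertiaOffTwo K) ρ (stabD P) W
      (∑ l ∈ T.filter (GA.Inr D), Parity.condExp ((Q l).inertia (AbsGal K)) ρ +
        ∑ l ∈ T.filter (fun l => l ∣ D),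
          quotDim (stabD (Q l)) ((Q l).inertia (AbsGal K)) ρ) := by
  have hn : Even n := ⟨Module.finrank E W, by omega⟩
  obtain ⟨E', i1, i2, i3, ι, hC⟩ := exists_hasL (QX.two_I hK hc hκ).kk hn hb hρ hres
  obtain ⟨d, β, h⟩ := exists_finExt ι
  have h1 := QX.main_gen6 (κ := κ) hK hc hκ hP hP2 hT hQ (det_fin ι hb)
    (isDualRep_fin (χ := cyc) ι hρ) hC
    (fun l hl hi => (hI l hl hi).imp_left (QG.commOn_ext ι).2)
    (fun l hl hi => (ER.semi_ext ι).2 (hR l hl hi)) h0 (W := h.extV W)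
    (fun σ hσ => h.extV_st (hW σ hσ)) (by rw [h.finrank_extV, hW2])
    (h.extV_iso hW0)
  simp only [condExp_fin, quotDim_fin] at h1
  exact parityG_fin h h1

open scoped Classical in
theorem selfR (hK : QX.IsI K D s) (hc : PA.IsConj s c)
    (hκ : ∀ (σ : AbsGal K) (x : AlgebraicClosure K), κ σ x = c (σ (c x))) (hP : P.IsPrime)
    (hP2 : (2 : 𝓞 (AlgebraicClosure K)) ∈ P)
    (hPP : ∀ x y : 𝓞 (AlgebraicClosure K), (y : AlgebraicClosure K) = c x → (y ∈ P' ↔ x ∈ P))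
    {T : Finset ℕ} (hT : ∀ l ∈ T, l.Prime ∧ l ≠ 2)
    {Q : ℕ → Ideal (𝓞 (AlgebraicClosure K))}
    (hQ : ∀ l ∈ T, (Q l).IsPrime ∧ (l : 𝓞 (AlgebraicClosure K)) ∈ Q l)
    {E : Type v} [NormedField E] [NormedAlgebra ℚ_[2] E] [FiniteDimensional ℚ_[2] E] {n : ℕ}
    {ρ : AbsGal K →* Matrix (Fin n) (Fin n) E} {b : Matrix (Fin n) (Fin n) E} (hb : b.det ≠ 0)
    (hρ : IsDualRep (inT K T) (cyclo E) κ ρ b) (hres : ResSelfDual ρ)
    (hI : ∀ l ∈ T, GA.Inr D l → CommOn ((Q l).inertia (AbsGal K)) ρ ∨ n = 2)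
    (hR : ∀ l ∈ T, l ∣ D → SemistableOn ((Q l).inertia (AbsGal K)) ρ)
    {W : Submodule E (Fin n → E)} (hW : ∀ σ ∈ stabD P, ∀ x ∈ W, ρ σ *ᵥ x ∈ W)
    {g : AbsGal K} (hg : ∀ x : 𝓞 (AlgebraicClosure K), x ∈ P' ↔ g • x ∈ P)
    (hW' : ∀ y, y ∈ annih b W ↔ ρ g *ᵥ y ∈ W)
    {k : stabD P → stabD P} (hk : ∀ a, (k a : AbsGal K) = g * κ a * g⁻¹) :
    ParitySelf (inertiaOffTwo K) (cyclo E) κ ρ b (stabD P) (ρ g⁻¹) k W
        (∑ l ∈ T.filter (GA.Inr D), Parity.condExp ((Q l).inertia (AbsGal K)) ρ +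
          ∑ l ∈ T.filter (fun l => l ∣ D),
            quotDim (stabD (Q l)) ((Q l).inertia (AbsGal K)) ρ) := by
  have X := QX.two_I hK hc hκ
  obtain rfl := eq_cj hPP
  have hW2 := two_finrank hb hW'
  have hW0 : ∀ x ∈ W, ∀ y ∈ W, bil b x (ρ g⁻¹ *ᵥ y) = 0 := fun x hx y hy => by
    refine (hW' _).2 ?_ x hx
    rw [mulVec_mulVec, ← map_mul, mul_inv_cancel, map_one, one_mulVec]
    exact hy
  have hn : Even n := ⟨Module.finrank E W, by omega⟩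
  obtain ⟨E', i1, i2, i3, ι, hC⟩ := exists_hasL X.kk hn hb hρ hres
  obtain ⟨d, β, h⟩ := exists_finExt ι
  have h1 := (QX.main_genL4 (κ := κ) hK hc hκ hP hP2 hT hQ (det_fin ι hb)
    (isDualRep_fin (χ := cyc) ι hρ) hC
    (fun l hl hi => (hI l hl hi).imp_left (QG.commOn_ext ι).2)
    (fun l hl hi => (ER.semi_ext ι).2 (hR l hl hi)) ((swap_iff X g).2 hg) hk (W := h.extV W)
    (fun σ hσ => h.extV_st (hW σ hσ)) (by rw [h.finrank_extV, hW2])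
    (h.extV_iso hW0)).2
  simp only [condExp_fin, quotDim_fin] at h1
  exact paritySelf_fin (χ := cyc) h h1

open scoped Classical in
theorem ord_mainR (hK : QX.IsI K D s) (hc : PA.IsConj s c)
    (hκ : ∀ (σ : AbsGal K) (x : AlgebraicClosure K), κ σ x = c (σ (c x))) (hP : P.IsPrime)
    (hP2 : (2 : 𝓞 (AlgebraicClosure K)) ∈ P)
    (hPP : ∀ x y : 𝓞 (AlgebraicClosure K), (y : AlgebraicClosure K) = c x → (y ∈ P' ↔ x ∈ P))
    {T : Finset ℕ} (hT : ∀ l ∈ T, l.Prime ∧ l ≠ 2)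
    {Q : ℕ → Ideal (𝓞 (AlgebraicClosure K))}
    (hQ : ∀ l ∈ T, (Q l).IsPrime ∧ (l : 𝓞 (AlgebraicClosure K)) ∈ Q l)
    {E : Type v} [NormedField E] [NormedAlgebra ℚ_[2] E] [FiniteDimensional ℚ_[2] E] {n : ℕ}
    (hn : Even n)
    {ρ : AbsGal K →* Matrix (Fin n) (Fin n) E} {b : Matrix (Fin n) (Fin n) E} (hb : b.det ≠ 0)
    (hρ : IsDualRep (inT K T) (cyclo E) κ ρ b) (hres : ResSelfDual ρ)
    (hI : ∀ l ∈ T, GA.Inr D l → CommOn ((Q l).inertia (AbsGal K)) ρ ∨ n = 2)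
    (hR : ∀ l ∈ T, l ∣ D → SemistableOn ((Q l).inertia (AbsGal K)) ρ)
    {W : Submodule E (Fin n → E)} (hW : ∀ σ ∈ stabD P, ∀ x ∈ W, ρ σ *ᵥ x ∈ W)
    (hW' : ∀ g : AbsGal K, (∀ x : 𝓞 (AlgebraicClosure K), x ∈ P' ↔ g • x ∈ P) →
      ∀ y, y ∈ annih b W ↔ ρ g *ᵥ y ∈ W) :
    ParityOrdinary (inertiaOffTwo K) ρ (stabD P) (stabD P') W (annih b W) (D % 8 = 7)
      (∑ l ∈ T.filter (GA.Inr D), Parity.condExp ((Q l).inertia (AbsGal K)) ρ +
        ∑ l ∈ T.filter (fun l => l ∣ D),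
          quotDim (stabD (Q l)) ((Q l).inertia (AbsGal K)) ρ) :=
  ord_all hK hc hκ hP hP2 hPP hb hρ hW hW'
    (fun hD => RB.main_gen5 ⟨hK.deg, hK.sq, hK.sqf, hD⟩ hc hκ hP hP2 hT hQ hn hb hρ hres hI hR)
    fun _ h0 h2 hiso =>
      greenR hK hc hκ hP hP2 hT hQ hb hρ hres hI hR h0 hW h2 hiso

end Pool.Agent.Work.MP_787500_nt.OV
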