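import Mathlib
import Pool.Agent.Work.MP_787500_nt.QG.EDefs
import Pool.Agent.Work.MP_787500_nt.QG.FDefs
import Pool.Agent.Work.MP_787500_nt.QX.LDefs
import Pool.Agent.Work.MP_787500_nt.ER.FDefs
import Pool.Agent.Work.MP_787500_nt.OV.Defs
import Pool.Agent.Work.MP_787500_nt.RB.FDefs

/-!
Parity of ordinary Selmer groups over every imaginary quadratic field: definitions used in the statement of the
theorem. The other definitions are in `PA/ParityDefs.lean`, `GP/FinDefs.lean`, `HP/BKDefs.lean`, `LA/FDefs.lean`,
`QW/FDefs.lean`, `QG/FDefs.lean`, `QG/RDefs.lean`, `QG/EDefs.lean`, `QX/FDefs.lean`, `QX/LDefs.lean`, `ER/FDefs.lean`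
and `OV/Defs.lean`.
-/

set_option autoImplicit false

namespace Pool.Agent.Work.MP_787500_nt.Parity

open Matrix

variable {G : Type*} [Group G] [TopologicalSpace G] {E : Type*} [NormedField E] {n : ℕ}

/-- One of the following holds. `n = 2` and the determinant is congruent to 1 modulo the maximal ideal. `ρ` is
residually symplectic. `ρ` is a twist of the restriction of a symplectic representation. -/
def AdmissibleO (I : Set G) (κ : G → G) (ρ : G →* Matrix (Fin n) (Fin n) E)
    (b : Matrix (Fin n) (Fin n) E) : Prop :=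
  (n = 2 ∧ ∀ σ, ‖(ρ σ).det - 1‖ < 1) ∨ ResSympl κ ρ b ∨ TwistSympl I κ ρ b

end Pool.Agent.Work.MP_787500_nt.Parity
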