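import Mathlib
import Pool.Agent.Work.MP_787500_nt.OV.FDefs
import Pool.Agent.Work.MP_787500_nt.OV.Main
import Pool.Agent.Work.MP_787500_nt.QX.Res6

/-!
# Module OV/Final: the theorem in elementary terms
-/

set_option autoImplicit false
set_option linter.unusedSectionVars false

namespace Pool.Agent.Work.MP_787500_nt.OV

open Matrix NumberField
open Pool.Agent.Work.MP_787500_nt.GP (inT stabD)
open Pool.Agent.Work.MP_787500_nt.Parity

universe u v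

open scoped Classical in
theorem final (K : Type u) [Field K] [NumberField K] (hK : Module.finrank ℚ K = 2) (D : ℕ)
    (hD : Squarefree D) (s : K) (hs : s ^ 2 = -(D : K))
    (c : AlgebraicClosure K ≃+* AlgebraicClosure K) (hc : ∀ x, c (c x) = x)
    (hcs : c (algebraMap K (AlgebraicClosure K) s) = -algebraMap K (AlgebraicClosure K) s)
    (κ : AbsGal K → AbsGal K)
    (hκ : ∀ (σ : AbsGal K) (x : AlgebraicClosure K), κ σ x = c (σ (c x)))
    (P P' : Ideal (𝓞 (AlgebraicClosure K))) (hP : P.IsPrime)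
    (hP2 : (2 : 𝓞 (AlgebraicClosure K)) ∈ P)
    (hPP : ∀ x y : 𝓞 (AlgebraicClosure K), (y : AlgebraicClosure K) = c x → (y ∈ P' ↔ x ∈ P))
    (T : Finset ℕ) (hT : ∀ l ∈ T, l.Prime ∧ l ≠ 2)
    (Q : ℕ → Ideal (𝓞 (AlgebraicClosure K)))
    (hQ : ∀ l ∈ T, (Q l).IsPrime ∧ (l : 𝓞 (AlgebraicClosure K)) ∈ Q l)
    (E : Type v) [NormedField E] [NormedAlgebra ℚ_[2] E] [FiniteDimensional ℚ_[2] E] (n : ℕ)
    (ρ : AbsGal K →* Matrix (Fin n) (Fin n) E) (b : Matrix (Fin n) (Fin n) E) (hb : b.det ≠ 0)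
    (hρ : IsDualRep (inT K T) (cyclo E) κ ρ b) (hN : AdmissibleO (inT K T) κ ρ b)
    (hI : ∀ l ∈ T, SqMod D l ∨ CommOn ((Q l).inertia (AbsGal K)) ρ ∨ n = 2)
    (hR : ∀ l ∈ T, l ∣ D → SemistableOn ((Q l).inertia (AbsGal K)) ρ)
    (W : Submodule E (Fin n → E)) (hW : ∀ σ ∈ stabD P, ∀ x ∈ W, ρ σ *ᵥ x ∈ W)
    (hW' : ∀ g : AbsGal K, (∀ x : 𝓞 (AlgebraicClosure K), x ∈ P' ↔ g • x ∈ P) →
      ∀ y, y ∈ annih b W ↔ ρ g *ᵥ y ∈ W) :
    ParityOrdinary (inertiaOffTwo K) ρ (stabD P) (stabD P') W (annih b W) (D % 8 = 7)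
        (∑ l ∈ T.filter (fun l => ¬ SqMod D l), Parity.condExp ((Q l).inertia (AbsGal K)) ρ +
          ∑ l ∈ T.filter (fun l => l ∣ D), quotDim (stabD (Q l)) ((Q l).inertia (AbsGal K)) ρ) ∧
      ∀ g : AbsGal K, (∀ x : 𝓞 (AlgebraicClosure K), x ∈ P' ↔ g • x ∈ P) →
        ∀ k : stabD P → stabD P, (∀ a, (k a : AbsGal K) = g * κ a * g⁻¹) →
          IsSelfPerp (cyclo E) κ ρ b (stabD P) (ρ g⁻¹) k (greenbergAt ρ (stabD P) W) ∧
          ParitySelf (inertiaOffTwo K) (cyclo E) κ ρ b (stabD P) (ρ g⁻¹) k W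
            (∑ l ∈ T.filter (fun l => ¬ SqMod D l),
                Parity.condExp ((Q l).inertia (AbsGal K)) ρ +
              ∑ l ∈ T.filter (fun l => l ∣ D),
                quotDim (stabD (Q l)) ((Q l).inertia (AbsGal K)) ρ) := by
  let κ' : AbsGal K →* AbsGal K := MonoidHom.mk' κ fun g h => by
    ext x
    rw [hκ, AlgEquiv.mul_apply, AlgEquiv.mul_apply, hκ, hκ, hc]
  have hK' : QX.IsI K D s := ⟨hK, hs, hD⟩
  have hc' : PA.IsConj s c := ⟨hc, hcs⟩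
  have hdv : ∀ l, l ∣ D → SqMod D l := by
    intro l h
    refine ⟨0, ?_⟩
    have h1 : (l : ℤ) ∣ (D : ℤ) := by exact_mod_cast h
    simpa using h1
  have hf : T.filter (fun l => ¬ SqMod D l) = T.filter (GA.Inr D) :=
    Finset.filter_congr fun l hl => ⟨fun h => ⟨(hT l hl).1, (hT l hl).2,
      fun hlD => h (hdv l hlD), h⟩, fun h => h.2.2.2⟩
  have hC : SH.HasL (fun _ => False) κ' ρ b := by
    refine QX.hasL_false hK' hc' hκ hb hρ ?_
    rcases hN with h | h | h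
    · exact Or.inl h
    · exact Or.inr (Or.inr h)
    · obtain ⟨χ, C, h1, h2, h3, h4, h5, h6⟩ := h
      exact Or.inr (Or.inl ⟨χ, C, h1, h2, h3, h4, h5, h6,
        fun σ hσ => absurd hσ (Set.notMem_empty σ)⟩)
  have hI' : ∀ l ∈ T, GA.Inr D l → CommOn ((Q l).inertia (AbsGal K)) ρ ∨ n = 2 :=
    fun l hl hli => (hI l hl).resolve_left hli.2.2.2
  rw [hf]
  exact ⟨ord_main (κ := κ') hK' hc' hκ hP hP2 hPP hT hQ hb hρ hC hI' hR hW hW',
    fun g hg k hk => self_main (κ := κ') hK' hc' hκ hP hP2 hPP hT hQ hb hρ hC hI' hR hW hg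
      (hW' g hg) hk⟩

end Pool.Agent.Work.MP_787500_nt.OV
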